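import Pool.Agent.Y663.M3.Quad
import Pool.Agent.Y663.M3.Fin
import Pool.Agent.Y663.D2.Fb

/-! Asymptotics of the effective edge, bounded laws (helper663). -/

set_option autoImplicit false

open scoped BigOperators ENNReal
open MeasureTheory

namespace Pool.Agent.Y663.M3.Asy

open Pool.Agent.H4R2
open Pool.Agent.H4R2.AE (T LapW Hop)
open Pool.Agent.H4R2.AE.Good (clamp W)
open Pool.Agent.Y661.ED (gg gg_eq mt FL NN NN_pos NN_eq mt_pos Gd FL_lim)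
open Pool.Agent.Y663.M3.Quad (Aq)

variable {d L : ℕ} [NeZero L]

/-- upper bound for the energy (lower bound for `-E0`), deterministic -/
theorem low (σ t e v G E0 : ℝ) (V ψ : T d L → ℝ) (hσ : 0 < σ) (ht : 0 < t) (ht1 : t ≤ 1)
    (he : 0 < e) (he1 : e ≤ 1) (hv0 : 0 ≤ v) (hv1 : v ≤ 1) (hG : 0 ≤ G)
    (hψ : ∀ x, 0 < ψ x) (heig : ∀ x, Hop σ V ψ x = E0 * ψ x) (hV : ∀ x, |V x| ≤ 1)
    (hA : |Aq t V - v * FL d L t| ≤ e) (hF : |FL d L t - G| ≤ e)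
    (hav : |∑ x, clamp V x| ≤ NN d L * (e * σ)) (hs : σ / t ^ 2 ≤ e) (hσ1 : σ ≤ 1) :
    σ ^ 2 * (v * G - (3 * G + 10) * e) ≤ -E0 := by
  have hN : 0 < NN d L := NN_pos
  have hcl : clamp V = V := AE.Good.good_clamp_eq V hV
  obtain ⟨Γ, hΓ⟩ : ∃ Γ, Γ = Aq t V := ⟨_, rfl⟩
  have hΓs : ∑ x, V x * gg t V x = NN d L * Γ := by
    rw [hΓ]
    unfold Quad.Aq
    rw [hcl]
    field_simp
  have hΓt : |Γ| ≤ 1 / t := by
    rw [hΓ]
    exact Quad.Aq_bd t ht V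
  rw [← hΓ] at hA
  rw [hcl] at hav
  have a1 := abs_le.1 hA
  have a2 := abs_le.1 hF
  have a3 := abs_le.1 hΓt
  have hlow : v * G - 2 * e ≤ Γ := by
    have h1 : v * (G - e) ≤ v * FL d L t := mul_le_mul_of_nonneg_left (by linarith) hv0
    have h2 : v * e ≤ 1 * e := mul_le_mul_of_nonneg_right hv1 he.le
    nlinarith [a1.1]
  have hup : Γ ≤ G + 2 := by
    have h1 : v * FL d L t ≤ v * (G + e) := mul_le_mul_of_nonneg_left (by linarith) hv0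
    have h2 : v * (G + e) ≤ 1 * (G + e) := mul_le_mul_of_nonneg_right hv1 (by linarith)
    linarith [a1.2]
  have hσt : σ * |Γ| / t ≤ e := by
    calc σ * |Γ| / t ≤ σ * (1 / t) / t := by gcongr
      _ = σ / t ^ 2 := by field_simp
      _ ≤ e := hs
  have hσt' : σ * Γ / t ≤ e := by
    refine le_trans ?_ hσt
    gcongr
    exact le_abs_self _
  have hσ2 : 0 < σ ^ 2 := by positivity
  rcases le_or_gt 0 (Γ - σ * Γ / t - e) with hY | hY
  · have hΓ0 : 0 ≤ Γ := by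
      by_contra hcon
      push Not at hcon
      have h1 : -(σ * |Γ| / t) ≤ σ * Γ / t := by
        rw [abs_of_neg hcon]
        apply le_of_eq
        ring
      have h2 : σ / t ≤ 1 := by
        have h3 : σ / t ≤ σ / t ^ 2 := by
          apply div_le_div_of_nonneg_left hσ.le (by positivity)
          nlinarith
        linarith
      have h3 : Γ - σ * Γ / t = Γ * (1 - σ / t) := by ring
      have h4 : Γ * (1 - σ / t) ≤ 0 := mul_nonpos_of_nonpos_of_nonneg hcon.le (by linarith)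
      linarith
    have h1 := Pool.Agent.Y661.ED.lower σ t E0 V ψ (gg t V) hσ ht hψ heig (gg_eq t ht V) Γ (e * σ) 1
      hΓs hav hV (by
        have e1 : σ ^ 2 * Γ - σ ^ 3 * 1 * Γ / t - σ * (e * σ) = σ ^ 2 * (Γ - σ * Γ / t - e) := by
          ring
        rw [e1]
        positivity)
    have e1 : σ ^ 2 * Γ - σ ^ 3 * 1 * Γ / t - σ * (e * σ) = σ ^ 2 * (Γ - σ * Γ / t - e) := by
      ring
    rw [e1] at h1
    obtain ⟨D, hD⟩ : ∃ D, D = 1 + 2 * σ * (e * σ) / t + σ ^ 2 * Γ / t := ⟨_, rfl⟩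
    obtain ⟨Y, hYd⟩ : ∃ Y, Y = Γ - σ * Γ / t - e := ⟨_, rfl⟩
    rw [← hD, ← hYd] at h1
    rw [← hYd] at hY
    have hD1 : 1 ≤ D := by
      rw [hD]
      have : 0 ≤ 2 * σ * (e * σ) / t := by positivity
      have : 0 ≤ σ ^ 2 * Γ / t := by positivity
      linarith
    have hD2 : D ≤ 1 + 3 * e := by
      rw [hD]
      have h2 : 2 * σ * (e * σ) / t ≤ 2 * e := by
        have h3 : 2 * σ * (e * σ) / t = 2 * e * (σ * (σ / t)) := by ring
        have h4 : σ / t ≤ 1 := by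
          have h5 : σ / t ≤ σ / t ^ 2 := by
            apply div_le_div_of_nonneg_left hσ.le (by positivity)
            nlinarith
          linarith
        have h6 : σ * (σ / t) ≤ 1 * 1 := mul_le_mul hσ1 h4 (by positivity) (by norm_num)
        rw [h3]
        nlinarith
      have h3 : σ ^ 2 * Γ / t ≤ e := by
        calc σ ^ 2 * Γ / t = σ * (σ * Γ / t) := by ring
          _ ≤ 1 * (σ * Γ / t) := mul_le_mul_of_nonneg_right hσ1 (by positivity)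
          _ ≤ e := by linarith
      linarith
    have hYG : Y ≤ G + 2 := by
      rw [hYd]
      have : 0 ≤ σ * Γ / t := by positivity
      linarith
    have hYl : v * G - 4 * e ≤ Y := by
      rw [hYd]
      linarith
    have h2 : σ ^ 2 * Y ≤ -E0 * (1 + 3 * e) := by
      have hE0 : 0 ≤ -E0 := by
        by_contra hcon
        push Not at hcon
        have h5 : -E0 * D < 0 := mul_neg_of_neg_of_pos hcon (by linarith)
        have h6 : 0 ≤ σ ^ 2 * Y := by positivity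
        linarith
      exact h1.trans (mul_le_mul_of_nonneg_left hD2 hE0)
    have h3 : σ ^ 2 * (Y - 3 * e * Y) ≤ -E0 := by
      by_contra hcon
      push Not at hcon
      have h4 : -E0 * (1 + 3 * e) < σ ^ 2 * (Y - 3 * e * Y) * (1 + 3 * e) :=
        mul_lt_mul_of_pos_right hcon (by linarith)
      have h5 : σ ^ 2 * (Y - 3 * e * Y) * (1 + 3 * e) = σ ^ 2 * Y - 9 * e ^ 2 * (σ ^ 2 * Y) := by
        ring
      have h6 : 0 ≤ 9 * e ^ 2 * (σ ^ 2 * Y) := by positivity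
      linarith
    refine le_trans ?_ h3
    apply mul_le_mul_of_nonneg_left _ hσ2.le
    have h7 : 3 * e * Y ≤ 3 * e * (G + 2) := by gcongr
    linarith
  · have hvG : v * G ≤ 4 * e := by linarith
    have hvar := Pool.Agent.Y661.ED.variational σ E0 V ψ hψ heig (fun _ => 1)
    have h1 : ∑ x, (fun _ : T d L => (1 : ℝ)) x * Hop σ V (fun _ => 1) x = σ * ∑ x, V x := by
      rw [Finset.mul_sum]
      refine Finset.sum_congr rfl fun x _ => ?_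
      unfold AE.Hop
      simp
      ring
    rw [h1] at hvar
    have h2 : ∑ x : T d L, (fun _ : T d L => (1 : ℝ)) x ^ 2 = NN d L := by
      unfold NN
      simp
    rw [h2] at hvar
    have h3 : ∑ x, V x ≤ NN d L * (e * σ) := (le_abs_self _).trans hav
    have h4 : E0 * NN d L ≤ σ * (NN d L * (e * σ)) :=
      hvar.trans (mul_le_mul_of_nonneg_left h3 hσ.le)
    have h5 : E0 ≤ σ ^ 2 * e := by
      have h6 : E0 * NN d L ≤ σ ^ 2 * e * NN d L := by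
        calc E0 * NN d L ≤ σ * (NN d L * (e * σ)) := h4
          _ = σ ^ 2 * e * NN d L := by ring
      exact le_of_mul_le_mul_right h6 hN
    have h6 : v * G - (3 * G + 10) * e ≤ -e := by nlinarith
    have h7 : σ ^ 2 * (v * G - (3 * G + 10) * e) ≤ σ ^ 2 * -e :=
      mul_le_mul_of_nonneg_left h6 hσ2.le
    linarith

theorem Gd_nonneg (d : ℕ) : 0 ≤ Gd d := by
  unfold Gd
  refine integral_nonneg fun x => inv_nonneg.2 (Finset.sum_nonneg fun i _ => ?_)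
  exact Pool.Agent.Y661.ED.om_nonneg _

/-- from `|W| < δ` everywhere to a flat ground state -/
theorem flat_of_W (C2 : ℝ)
    (Hflat : ∀ (L : ℕ) [NeZero L] (lam η E : ℝ),
      0 < η → η ≤ 1 → ∀ (V w : T 3 L → ℝ), (∀ x, |w x| ≤ η / C2) →
      (∀ x, ∑ i : Fin 3, ((1 - Real.exp (w (x + Pi.single i 1) - w x)) +
        (1 - Real.exp (w (x - Pi.single i 1) - w x))) + lam * V x - E +
          1 / (4 * (L : ℝ) ^ 2) * w x = 0) →
      AE.Core.FlatE lam η (1 / (L : ℝ) ^ 2) E V)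
    (L : ℕ) [NeZero L] (lam δ E : ℝ) (hlam : 0 < lam) (hδ : 0 < δ) (hδ2 : δ ≤ 1 / C2)
    (hE : |E| ≤ lam) (V : T 3 L → ℝ) (hV1 : ∀ x, |V x| ≤ 1)
    (hV : ∀ x, |W lam δ (1 / (4 * (L : ℝ) ^ 2)) E V x| < δ) :
    AE.Core.FlatE lam 1 (1 / (L : ℝ) ^ 2) E V := by
  have hL := AE.Core.L_pos (L := L)
  have hκ : 0 < 1 / (4 * (L : ℝ) ^ 2) := by positivity
  refine Hflat L lam 1 E one_pos le_rfl V (W lam δ (1 / (4 * (L : ℝ) ^ 2)) E V)
    (fun x => (hV x).le.trans hδ2) fun x => ?_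
  have h := AE.Good.good_W lam δ _ E V hlam hδ hκ hE
  rw [AE.Good.good_clamp_eq V hV1] at h
  have hx := h x
  rw [AE.Good.good_beta lam δ _ _ (hV x).le] at hx
  exact hx

/-- the energy on a torus, from below -/
theorem up (A : ℝ) (hA : 1 ≤ A)
    (HA : ∀ (L : ℕ) [NeZero L] (κ δ : ℝ), 0 < κ → 1 / (4 * (L : ℝ) ^ 2) ≤ κ → δ ≤ 1 / 8 →
      ∀ (u Gr : T 3 L → ℝ) (x0 : T 3 L), (∀ x, 1 / 2 ≤ u x) → (∀ x, 0 ≤ Gr x) →
      (∀ x, LapW u Gr x + κ * Real.exp (-(4 * δ)) * Gr x = if x = x0 then 1 else 0) →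
      ∑ z, Gr z ^ 2 ≤ A / Real.sqrt κ)
    (C2 : ℝ)
    (Hflat : ∀ (L : ℕ) [NeZero L] (lam η E : ℝ),
      0 < η → η ≤ 1 → ∀ (V w : T 3 L → ℝ), (∀ x, |w x| ≤ η / C2) →
      (∀ x, ∑ i : Fin 3, ((1 - Real.exp (w (x + Pi.single i 1) - w x)) +
        (1 - Real.exp (w (x - Pi.single i 1) - w x))) + lam * V x - E +
          1 / (4 * (L : ℝ) ^ 2) * w x = 0) →
      AE.Core.FlatE lam η (1 / (L : ℝ) ^ 2) E V)
    (μ : Measure ℝ) [IsProbabilityMeasure μ] (hμ : μ (Set.Icc (-1) 1)ᶜ = 0) (v : ℝ)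
    (hm1 : ∫ t, max (-1) (min 1 t) ∂μ = 0) (hm2 : ∫ t, (max (-1) (min 1 t)) ^ 2 ∂μ = v)
    (L : ℕ) [NeZero L] (σ δ p : ℝ) (hσ : 0 < σ) (hδ : 0 < δ) (hδ8 : δ ≤ 1 / 8)
    (hδ2 : δ ≤ 1 / C2) (hp : p = 2 * Real.exp (-(δ ^ 2 / (288 * A * L * σ ^ 2))))
    (hp1 : (L : ℝ) ^ 3 * p ≤ 1 / 4) :
    ∃ E : ℝ, |E| ≤ σ ∧ (∃ G : Set (T 3 L → ℝ), MeasurableSet G ∧
      1 / 2 < (Measure.pi fun _ : T 3 L => μ).real G ∧
      ∀ V ∈ G, AE.Core.FlatE σ 1 (1 / (L : ℝ) ^ 2) E V) ∧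
      (1 - 3 * δ) * (-E - 2 * σ * p) ≤
        σ ^ 2 * v * Real.exp (12 * δ) * FL 3 L (1 / (4 * (L : ℝ) ^ 2)) := by
  have hL := AE.Core.L_pos (L := L)
  obtain ⟨κ, hκd⟩ : ∃ κ : ℝ, κ = 1 / (4 * (L : ℝ) ^ 2) := ⟨_, rfl⟩
  have hκ : 0 < κ := by rw [hκd]; positivity
  have hsq : Real.sqrt κ = 1 / (2 * L) := by
    have e : 1 / (4 * (L : ℝ) ^ 2) = (1 / (2 * L)) ^ 2 := by
      field_simp
      norm_num
    rw [hκd, e, Real.sqrt_sq (by positivity)]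
  obtain ⟨R, hR⟩ : ∃ R : ℝ, R = 2 * A * L := ⟨_, rfl⟩
  have hA0 : 0 < A := by linarith
  have hR0 : 0 < R := by rw [hR]; positivity
  have hG : ∀ (u Gr : T 3 L → ℝ) (x0 : T 3 L), (∀ x, 1 / 2 ≤ u x) → (∀ x, 0 ≤ Gr x) →
      (∀ x, LapW u Gr x + κ * Real.exp (-(4 * δ)) * Gr x = if x = x0 then 1 else 0) →
      ∑ z, Gr z ^ 2 ≤ R := by
    intro u Gr x0 hu hGr hh
    have h1 := HA L κ δ hκ (by rw [hκd]) hδ8 u Gr x0 hu hGr hh
    rw [hsq] at h1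
    refine h1.trans (le_of_eq ?_)
    rw [hR]
    field_simp
  obtain ⟨E, hE, hE0⟩ := AE.Good.good_E (d := 3) (L := L) σ δ κ hσ hδ hκ μ
  have htail : ∀ x : T 3 L, (Measure.pi fun _ : T 3 L => μ).real {V | δ ≤ |W σ δ κ E V x|} ≤ p := by
    intro x
    have h1 := AE.Goodt.goodt_tail κ hκ 2 R (by norm_num) hR0.le μ σ δ hσ hδ hδ8
      (Pool.Agent.Y663.D2.Fb.hG2 κ δ _ hG) (δ / (72 * R * σ ^ 2)) (by positivity) E hE hE0 x
    refine h1.trans ?_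
    rw [hp, Real.rpow_two]
    refine mul_le_mul_of_nonneg_left (Real.exp_le_exp.2 (le_of_eq ?_)) (by norm_num)
    rw [hR]
    field_simp
    ring
  refine ⟨E, hE, ?_, ?_⟩
  · have hm : MeasurableSet {V : T 3 L → ℝ | ∀ x, |W σ δ κ E V x| < δ} := by
      have : {V : T 3 L → ℝ | ∀ x, |W σ δ κ E V x| < δ}
          = ⋂ x, {V : T 3 L → ℝ | |W σ δ κ E V x| < δ} := by
        ext V; simp
      rw [this]
      refine MeasurableSet.iInter fun x => ?_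
      exact measurableSet_lt ((AE.Good.good_cont σ δ _ E hσ hδ hκ hE x).abs.measurable)
        measurable_const
    have hcompl : (Measure.pi fun _ : T 3 L => μ).real
        {V : T 3 L → ℝ | ∀ x, |W σ δ κ E V x| < δ}ᶜ ≤ (L : ℝ) ^ 3 * p := by
      have hc : {V : T 3 L → ℝ | ∀ x, |W σ δ κ E V x| < δ}ᶜ
          = ⋃ x, {V : T 3 L → ℝ | δ ≤ |W σ δ κ E V x|} := by
        ext V; simp
      rw [hc]
      refine (measureReal_iUnion_fintype_le _).trans ?_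
      refine (Finset.sum_le_sum fun x _ => htail x).trans ?_
      rw [Finset.sum_const, nsmul_eq_mul, Finset.card_univ, AE.Sens.card_T]
    obtain ⟨G', hG', hP', hV'⟩ := AE.Arith.pi_real_inter μ hμ _ hm _ hcompl
    refine ⟨G', hG', by linarith, fun V hV => ?_⟩
    obtain ⟨h1, h2⟩ := hV' V hV
    refine flat_of_W C2 Hflat L σ δ E hσ hδ hδ2 hE V h2 fun x => ?_
    rw [← hκd]
    exact h1 x
  · have hen := Pool.Agent.Y663.D2.En.energy μ v hm1 hm2 σ δ κ E hσ hδ hδ8 hκ hE hE0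
      (gg κ (fun y : T 3 L => if y = 0 then (1 : ℝ) else 0)) (fun x => gg_eq κ hκ _ x)
    have hg0 : gg κ (fun y : T 3 L => if y = 0 then (1 : ℝ) else 0) 0 = FL 3 L κ := by
      unfold gg Pool.Agent.W788.MFP.Four.Op
      rw [Finset.sum_eq_single 0]
      · simp only [sub_zero, if_true, mul_one]
        exact Quad.K0 _
      · intro y _ hy
        simp only [if_neg hy, mul_zero]
      · intro h
        exact absurd (Finset.mem_univ _) h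
    rw [hg0] at hen
    rw [← hκd]
    refine le_trans ?_ hen
    refine mul_le_mul_of_nonneg_left ?_ (by linarith)
    have := mul_le_mul_of_nonneg_left (htail 0) (by positivity : (0 : ℝ) ≤ 2 * σ)
    linarith

/-- large `b` -/
theorem ev_exp (c : ℝ) (hc : 0 < c) (n : ℕ) (δ : ℝ) (hδ : 0 < δ) :
    ∀ᶠ b : ℝ in Filter.atTop, b ^ n * Real.exp (-(c * b)) ≤ δ := by
  have h := tendsto_rpow_mul_exp_neg_mul_atTop_nhds_zero (n : ℝ) c hc
  simp only [Real.rpow_natCast] at h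
  filter_upwards [h.eventually (ge_mem_nhds hδ)] with b hb
  rw [← neg_mul]
  exact hb

theorem consts (G : ℝ) (hG : 0 ≤ G) (ε : ℝ) (hε : 0 < ε) :
    ∃ e : ℝ, 0 < e ∧ e ≤ 1 / 24 ∧ 40 * (G + 1) * e ≤ ε := by
  refine ⟨min (1 / 24) (ε / (40 * (G + 1))), by positivity, min_le_left _ _, ?_⟩
  calc 40 * (G + 1) * min (1 / 24) (ε / (40 * (G + 1)))
      ≤ 40 * (G + 1) * (ε / (40 * (G + 1))) := by
        apply mul_le_mul_of_nonneg_left (min_le_right _ _) (by positivity)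
    _ = ε := by field_simp

/-- arithmetic of the upper half -/
theorem arith_up (σ δ e v G F P E : ℝ) (hσ : 0 < σ) (hδ : 0 < δ) (hδe : δ ≤ e)
    (he : e ≤ 1 / 24) (hv0 : 0 ≤ v) (hv1 : v ≤ 1) (hG : 0 ≤ G) (hF : F ≤ G + e) (hF0 : 0 ≤ F)
    (hP : 2 * P ≤ e * σ)
    (h : (1 - 3 * δ) * (-E - 2 * σ * P) ≤ σ ^ 2 * v * Real.exp (12 * δ) * F) :
    -E ≤ σ ^ 2 * (v * G + (36 * G + 38) * e) := by
  have hδ24 : δ ≤ 1 / 24 := hδe.trans he
  have hexp : Real.exp (12 * δ) ≤ 1 + 24 * δ := by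
    have h1 := Real.exp_bound' (show 0 ≤ 12 * δ by positivity) (show 12 * δ ≤ 1 by linarith)
      (show 0 < 2 by norm_num)
    simp [Finset.sum_range_succ] at h1
    nlinarith
  have h3 : 0 < 1 - 3 * δ := by linarith
  have h4 : 1 + 24 * δ ≤ (1 - 3 * δ) * (1 + 31 * δ) := by nlinarith
  have h5 : -E - 2 * σ * P ≤ σ ^ 2 * v * F * (1 + 31 * δ) := by
    have h6 : (1 - 3 * δ) * (-E - 2 * σ * P) ≤ (1 - 3 * δ) * (σ ^ 2 * v * F * (1 + 31 * δ)) := by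
      refine h.trans ?_
      calc σ ^ 2 * v * Real.exp (12 * δ) * F ≤ σ ^ 2 * v * (1 + 24 * δ) * F := by gcongr
        _ = σ ^ 2 * v * F * (1 + 24 * δ) := by ring
        _ ≤ σ ^ 2 * v * F * ((1 - 3 * δ) * (1 + 31 * δ)) := by gcongr
        _ = _ := by ring
    exact le_of_mul_le_mul_left h6 h3
  have h7 : σ ^ 2 * v * F * (1 + 31 * δ) ≤ σ ^ 2 * (v * G + (36 * G + 36) * e) := by
    have h8 : v * F * (1 + 31 * δ) ≤ v * G + (36 * G + 36) * e := by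
      have he1 : 0 < e := by linarith
      have hGe : 0 ≤ v * (G + e) := by positivity
      have h9 : v * F * (1 + 31 * δ) ≤ v * (G + e) * (1 + 31 * e) := by gcongr
      have h10 : v * (G + e) * (1 + 31 * e) = v * G + v * (e + 31 * e * G + 31 * e ^ 2) := by ring
      have h11 : v * (e + 31 * e * G + 31 * e ^ 2) ≤ 1 * (e + 31 * e * G + 31 * e ^ 2) := by
        have he0 : 0 < e := by linarith
        gcongr
      nlinarith
    calc σ ^ 2 * v * F * (1 + 31 * δ) = σ ^ 2 * (v * F * (1 + 31 * δ)) := by ring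
      _ ≤ _ := by gcongr
  have h12 : 2 * σ * P ≤ σ ^ 2 * e := by
    calc 2 * σ * P = σ * (2 * P) := by ring
      _ ≤ σ * (e * σ) := by gcongr
      _ = σ ^ 2 * e := by ring
  nlinarith [sq_nonneg σ]

/-- the edge energy, deterministic part -/
theorem low_e (K : ℝ) (hK : 1 ≤ K) (e : ℝ) (he : 0 < e) (he1 : e ≤ 1)
    (b t0 M G : ℝ) (hG : 0 ≤ G) (hGd : G = Gd 3) (ht0 : 0 < t0)
    (HFL : ∀ (L : ℕ) [NeZero L] (t : ℝ), 0 < t → t ≤ t0 → M ≤ L →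
      M ≤ (L : ℝ) ^ 3 * t → |FL 3 L t - Gd 3| ≤ e)
    (μ : Measure ℝ) [IsProbabilityMeasure μ] (hμ : μ (Set.Icc (-1) 1)ᶜ = 0) (v : ℝ)
    (hv0 : 0 ≤ v) (hv1 : v ≤ 1)
    (hm1 : ∫ t, max (-1) (min 1 t) ∂μ = 0) (hm2 : ∫ t, (max (-1) (min 1 t)) ^ 2 ∂μ = v)
    (σ Es : ℝ) (hσ : 0 < σ) (hσ1 : σ ≤ 1) (hb : 0 < b) (hb1 : 1 ≤ b) (hσb : σ = 1 / b ^ 2)
    (L : ℕ) [NeZero L] (hL : b ^ 3 ≤ L)
    (c1 : M ≤ b) (c2 : M ≤ b * min t0 1) (c3 : 16 ≤ b * e ^ 2)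
    (c4 : 64 ≤ b * ((min t0 1) ^ 2 * e ^ 2)) (c5 : 1 ≤ b * (e * (min t0 1) ^ 2))
    (c6 : K ≤ b * e)
    (G0 : Set (T 3 L → ℝ)) (hG0 : MeasurableSet G0)
    (hP0 : 1 / 2 < (Measure.pi fun _ : T 3 L => μ).real G0)
    (hF0 : ∀ V ∈ G0, AE.Core.FlatE σ 1 (K / (L : ℝ) ^ 2) Es V) :
    σ ^ 2 * (v * G - (3 * G + 11) * e) ≤ -Es := by
  obtain ⟨t, ht⟩ : ∃ t : ℝ, t = min t0 1 := ⟨_, rfl⟩
  rw [← ht] at c2 c4 c5
  have htp : 0 < t := by rw [ht]; exact lt_min ht0 one_pos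
  have ht1 : t ≤ 1 := by rw [ht]; exact min_le_right _ _
  have htt : t ≤ t0 := by rw [ht]; exact min_le_left _ _
  have hLp : (0 : ℝ) < L := AE.Core.L_pos
  have hbL : b ≤ L := by
    refine le_trans ?_ hL
    calc b = b ^ 1 := (pow_one b).symm
      _ ≤ b ^ 3 := pow_le_pow_right₀ hb1 (by norm_num)
  have hL3 : b ^ 9 ≤ (L : ℝ) ^ 3 := by
    calc b ^ 9 = (b ^ 3) ^ 3 := by ring
      _ ≤ (L : ℝ) ^ 3 := pow_le_pow_left₀ (by positivity) hL 3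
  have hbL3 : b ≤ (L : ℝ) ^ 3 := by
    refine le_trans ?_ hL3
    calc b = b ^ 1 := (pow_one b).symm
      _ ≤ b ^ 9 := pow_le_pow_right₀ hb1 (by norm_num)
  have hFL : |FL 3 L t - G| ≤ e := by
    rw [hGd]
    refine HFL L t htp htt (c1.trans hbL) ?_
    calc M ≤ b * t := c2
      _ ≤ (L : ℝ) ^ 3 * t := by gcongr
  have hNN : NN 3 L = (L : ℝ) ^ 3 := NN_eq
  have hq := Quad.quad (d := 3) (L := L) μ v hm1 hm2 t htp e he
  have ha := Quad.avg (d := 3) (L := L) μ hm1 (e * σ) (by positivity)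
  have hq' : (Measure.pi fun _ : T 3 L => μ).real {V | e ≤ |Aq t V - v * FL 3 L t|} ≤ 1 / 16 := by
    refine hq.trans ?_
    rw [hNN, div_le_div_iff₀ (by positivity) (by norm_num)]
    have : b * (t ^ 2 * e ^ 2) ≤ (L : ℝ) ^ 3 * (t ^ 2 * e ^ 2) := by gcongr
    linarith
  have ha' : (Measure.pi fun _ : T 3 L => μ).real
      {V | NN 3 L * (e * σ) ≤ |∑ x, clamp V x|} ≤ 1 / 16 := by
    refine ha.trans ?_
    rw [hNN, div_le_div_iff₀ (by positivity) (by norm_num), hσb]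
    have h1 : b * e ^ 2 ≤ (L : ℝ) ^ 3 * (e * (1 / b ^ 2)) ^ 2 := by
      calc b * e ^ 2 ≤ b ^ 5 * e ^ 2 := by
            gcongr
            calc b = b ^ 1 := (pow_one b).symm
              _ ≤ b ^ 5 := pow_le_pow_right₀ hb1 (by norm_num)
        _ = b ^ 9 * (e * (1 / b ^ 2)) ^ 2 := by field_simp
        _ ≤ _ := by gcongr
    linarith
  have hm1' : MeasurableSet {V : T 3 L → ℝ | e ≤ |Aq t V - v * FL 3 L t|} :=
    measurableSet_le measurable_const ((Quad.Aq_cont t).measurable.sub_const _).abs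
  have hclm : Measurable fun V : T 3 L → ℝ => ∑ x, clamp V x := by
    refine Finset.measurable_sum _ fun x _ => ?_
    unfold clamp
    exact measurable_const.max (measurable_const.min (measurable_pi_apply x))
  have hm2' : MeasurableSet {V : T 3 L → ℝ | NN 3 L * (e * σ) ≤ |∑ x, clamp V x|} :=
    measurableSet_le measurable_const hclm.abs
  obtain ⟨G1, hG1⟩ : ∃ G1 : Set (T 3 L → ℝ), G1 = (G0 \ {V | e ≤ |Aq t V - v * FL 3 L t|}) \
      {V | NN 3 L * (e * σ) ≤ |∑ x, clamp V x|} := ⟨_, rfl⟩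
  have hG1m : MeasurableSet G1 := by
    rw [hG1]
    exact (hG0.diff hm1').diff hm2'
  have hP1 : (Measure.pi fun _ : T 3 L => μ).real G1ᶜ ≤ 5 / 8 := by
    have h1 : G1ᶜ ⊆ (G0ᶜ ∪ {V | e ≤ |Aq t V - v * FL 3 L t|}) ∪
        {V | NN 3 L * (e * σ) ≤ |∑ x, clamp V x|} := by
      rw [hG1]
      intro V hV
      simp only [Set.mem_compl_iff, Set.mem_sdiff, not_and, not_not, Set.mem_union] at hV ⊢
      tauto
    refine (measureReal_mono h1).trans ?_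
    refine (measureReal_union_le _ _).trans ?_
    have h2 := measureReal_union_le (μ := Measure.pi fun _ : T 3 L => μ) G0ᶜ
      {V | e ≤ |Aq t V - v * FL 3 L t|}
    have h3 : (Measure.pi fun _ : T 3 L => μ).real G0ᶜ ≤ 1 / 2 := by
      rw [probReal_compl_eq_one_sub hG0]
      linarith
    linarith
  obtain ⟨G', hG', hP', hV'⟩ := AE.Arith.pi_real_inter μ hμ G1 hG1m _ hP1
  have hne : G'.Nonempty := by
    rw [Set.nonempty_iff_ne_empty]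
    intro h
    rw [h, measureReal_empty] at hP'
    norm_num at hP'
  obtain ⟨V, hV⟩ := hne
  obtain ⟨hVG, hV1⟩ := hV' V hV
  rw [hG1] at hVG
  obtain ⟨⟨hVG0, hVq⟩, hVa⟩ := hVG
  simp only [Set.mem_ofPred_eq, not_le] at hVq hVa
  obtain ⟨E0, ψ, hE0, hψ, heig, -⟩ := hF0 V hVG0
  have hl := low σ t e v G E0 V ψ hσ htp ht1 he he1 hv0 hv1 hG
    (fun x => by linarith [(hψ x).1]) heig hV1 hVq.le hFL hVa.le (by
      rw [hσb, div_div, div_le_iff₀ (by positivity)]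
      calc 1 ≤ b * (e * t ^ 2) := c5
        _ ≤ b ^ 2 * (e * t ^ 2) := by
          gcongr
          nlinarith
        _ = e * (b ^ 2 * t ^ 2) := by ring) hσ1
  have hK0 : 0 < K := by linarith
  have hKL : K / (L : ℝ) ^ 2 ≤ σ ^ 2 * e := by
    rw [div_le_iff₀ (by positivity), hσb]
    calc K ≤ b * e := c6
      _ ≤ b ^ 2 * e := by
          gcongr
          nlinarith
      _ = (1 / b ^ 2) ^ 2 * e * (b ^ 3) ^ 2 := by field_simp
      _ ≤ (1 / b ^ 2) ^ 2 * e * (L : ℝ) ^ 2 := by gcongr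
  have h5 := (abs_le.1 hE0).1
  have h6 : σ ^ 2 * (v * G - (3 * G + 11) * e) = σ ^ 2 * (v * G - (3 * G + 10) * e) - σ ^ 2 * e := by
    ring
  linarith

/-- the edge energy, probabilistic part -/
theorem up_e (A : ℝ) (hA : 1 ≤ A)
    (HA : ∀ (L : ℕ) [NeZero L] (κ δ : ℝ), 0 < κ → 1 / (4 * (L : ℝ) ^ 2) ≤ κ → δ ≤ 1 / 8 →
      ∀ (u Gr : T 3 L → ℝ) (x0 : T 3 L), (∀ x, 1 / 2 ≤ u x) → (∀ x, 0 ≤ Gr x) →
      (∀ x, LapW u Gr x + κ * Real.exp (-(4 * δ)) * Gr x = if x = x0 then 1 else 0) →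
      ∑ z, Gr z ^ 2 ≤ A / Real.sqrt κ)
    (C2 : ℝ)
    (Hflat : ∀ (L : ℕ) [NeZero L] (lam η E : ℝ),
      0 < η → η ≤ 1 → ∀ (V w : T 3 L → ℝ), (∀ x, |w x| ≤ η / C2) →
      (∀ x, ∑ i : Fin 3, ((1 - Real.exp (w (x + Pi.single i 1) - w x)) +
        (1 - Real.exp (w (x - Pi.single i 1) - w x))) + lam * V x - E +
          1 / (4 * (L : ℝ) ^ 2) * w x = 0) →
      AE.Core.FlatE lam η (1 / (L : ℝ) ^ 2) E V)
    (C3 : ℝ)
    (Hel : ∀ (μ : Measure ℝ) [IsProbabilityMeasure μ] (lam : ℝ) (L L0 : ℕ) [NeZero L] [NeZero L0],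
      L ≤ L0 → ∀ (E E' κ κ' : ℝ) (G : Set (AE.T 3 L → ℝ)) (G0 : Set (AE.T 3 L0 → ℝ)),
      MeasurableSet G → MeasurableSet G0 →
      1 / 2 < (Measure.pi fun _ : AE.T 3 L => μ).real G →
      1 / 2 < (Measure.pi fun _ : AE.T 3 L0 => μ).real G0 →
      (∀ V ∈ G, AE.Core.FlatE lam 1 κ E V) → (∀ V ∈ G0, AE.Core.FlatE lam 1 κ' E' V) →
      |E - E'| ≤ κ + κ' + C3 / (L : ℝ) ^ 2)
    (K : ℝ) (δ e : ℝ) (hδ : 0 < δ) (hδ8 : δ ≤ 1 / 8)
    (hδ2 : δ ≤ 1 / C2) (hδe : δ ≤ e) (he1 : e ≤ 1 / 24)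
    (b t0 M G : ℝ) (hG : 0 ≤ G) (hGd : G = Gd 3) (ht0 : 0 < t0)
    (HFL : ∀ (L : ℕ) [NeZero L] (t : ℝ), 0 < t → t ≤ t0 → M ≤ L →
      M ≤ (L : ℝ) ^ 3 * t → |FL 3 L t - Gd 3| ≤ e)
    (μ : Measure ℝ) [IsProbabilityMeasure μ] (hμ : μ (Set.Icc (-1) 1)ᶜ = 0) (v : ℝ)
    (hv0 : 0 ≤ v) (hv1 : v ≤ 1)
    (hm1 : ∫ t, max (-1) (min 1 t) ∂μ = 0) (hm2 : ∫ t, (max (-1) (min 1 t)) ^ 2 ∂μ = v)
    (σ Es : ℝ) (hσ : 0 < σ) (hb : 0 < b) (hb1 : 1 ≤ b) (hσb : σ = 1 / b ^ 2)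
    (L : ℕ) [NeZero L] (hL : b ^ 3 ≤ L) (hL2 : (L : ℝ) ≤ 2 * b ^ 3)
    (c1 : 4 * M ≤ b) (c2 : 1 ≤ b * t0)
    (c3 : b ^ 9 * Real.exp (-(δ ^ 2 / (576 * A) * b)) ≤ 1 / 64)
    (c4 : b ^ 2 * Real.exp (-(δ ^ 2 / (576 * A) * b)) ≤ e / 4)
    (c6 : 1 + K + C3 ≤ b * e)
    (G0 : Set (T 3 L → ℝ)) (hG0 : MeasurableSet G0)
    (hP0 : 1 / 2 < (Measure.pi fun _ : T 3 L => μ).real G0)
    (hF0 : ∀ V ∈ G0, AE.Core.FlatE σ 1 (K / (L : ℝ) ^ 2) Es V) :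
    -Es ≤ σ ^ 2 * (v * G + (36 * G + 39) * e) := by
  have hA0 : 0 < A := by linarith
  have hLp : (0 : ℝ) < L := AE.Core.L_pos
  have he : 0 < e := by linarith
  have hbL : b ≤ L := by
    refine le_trans ?_ hL
    calc b = b ^ 1 := (pow_one b).symm
      _ ≤ b ^ 3 := pow_le_pow_right₀ hb1 (by norm_num)
  obtain ⟨p, hp⟩ : ∃ p : ℝ, p = 2 * Real.exp (-(δ ^ 2 / (288 * A * L * σ ^ 2))) := ⟨_, rfl⟩
  have hpb : p ≤ 2 * Real.exp (-(δ ^ 2 / (576 * A) * b)) := by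
    rw [hp]
    refine mul_le_mul_of_nonneg_left (Real.exp_le_exp.2 (neg_le_neg ?_)) (by norm_num)
    rw [le_div_iff₀ (by positivity), hσb]
    calc δ ^ 2 / (576 * A) * b * (288 * A * L * (1 / b ^ 2) ^ 2)
        ≤ δ ^ 2 / (576 * A) * b * (288 * A * (2 * b ^ 3) * (1 / b ^ 2) ^ 2) := by gcongr
      _ = δ ^ 2 := by
        field_simp
        norm_num
  have hp0 : 0 ≤ p := by rw [hp]; positivity
  have hLp3 : (L : ℝ) ^ 3 * p ≤ 1 / 4 := by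
    calc (L : ℝ) ^ 3 * p ≤ (2 * b ^ 3) ^ 3 * (2 * Real.exp (-(δ ^ 2 / (576 * A) * b))) := by
          gcongr
      _ = 16 * (b ^ 9 * Real.exp (-(δ ^ 2 / (576 * A) * b))) := by ring
      _ ≤ 16 * (1 / 64) := by gcongr
      _ = 1 / 4 := by norm_num
  have h2p : 2 * p ≤ e * σ := by
    rw [hσb]
    have h1 : 2 * p * b ^ 2 ≤ e := by
      calc 2 * p * b ^ 2 ≤ 2 * (2 * Real.exp (-(δ ^ 2 / (576 * A) * b))) * b ^ 2 := by gcongr
        _ = 4 * (b ^ 2 * Real.exp (-(δ ^ 2 / (576 * A) * b))) := by ring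
        _ ≤ 4 * (e / 4) := by gcongr
        _ = e := by ring
    rw [mul_one_div, le_div_iff₀ (by positivity)]
    exact h1
  obtain ⟨E, hE, ⟨G1, hG1, hP1, hF1⟩, hen⟩ := up A hA HA C2 Hflat μ hμ v hm1 hm2 L σ δ p hσ hδ hδ8
    hδ2 hp hLp3
  have hFL : |FL 3 L (1 / (4 * (L : ℝ) ^ 2)) - G| ≤ e := by
    rw [hGd]
    refine HFL L _ (by positivity) ?_ ?_ ?_
    · rw [div_le_iff₀ (by positivity)]
      calc 1 ≤ b * t0 := c2
        _ ≤ L * t0 := by gcongr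
        _ ≤ t0 * (4 * (L : ℝ) ^ 2) := by
          have : (L : ℝ) ≤ 4 * (L : ℝ) ^ 2 := by nlinarith
          nlinarith
    · rcases le_or_gt M 0 with h | h
      · linarith
      · linarith
    · have h1 : (L : ℝ) ^ 3 * (1 / (4 * (L : ℝ) ^ 2)) = L / 4 := by field_simp
      rw [h1]
      linarith
  have hF0' := abs_le.1 hFL
  have hFnn : 0 ≤ FL 3 L (1 / (4 * (L : ℝ) ^ 2)) := by
    unfold FL
    refine mul_nonneg (by positivity) (Finset.sum_nonneg fun k _ => ?_)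
    exact (mt_pos _ (by positivity) k).le
  have hU := arith_up σ δ e v G (FL 3 L (1 / (4 * (L : ℝ) ^ 2))) p E hσ hδ hδe he1 hv0 hv1 hG
    (by linarith [hF0'.2]) hFnn h2p hen
  have hcmp := Hel μ σ L L le_rfl E Es (1 / (L : ℝ) ^ 2) (K / (L : ℝ) ^ 2) G1 G0 hG1 hG0 hP1 hP0
    hF1 hF0
  have hKL : 1 / (L : ℝ) ^ 2 + K / (L : ℝ) ^ 2 + C3 / (L : ℝ) ^ 2 ≤ σ ^ 2 * e := by
    rw [← add_div, ← add_div, div_le_iff₀ (by positivity), hσb]
    calc 1 + K + C3 ≤ b * e := c6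
      _ ≤ b ^ 2 * e := by
          gcongr
          nlinarith
      _ = (1 / b ^ 2) ^ 2 * e * (b ^ 3) ^ 2 := by field_simp
      _ ≤ (1 / b ^ 2) ^ 2 * e * (L : ℝ) ^ 2 := by gcongr
  have h5 := (abs_le.1 hcmp).2
  have h6 : σ ^ 2 * (v * G + (36 * G + 39) * e) = σ ^ 2 * (v * G + (36 * G + 38) * e) + σ ^ 2 * e := by
    ring
  linarith

theorem ev_lin (c x : ℝ) (hx : 0 < x) : ∀ᶠ b : ℝ in Filter.atTop, c ≤ b * x :=
  (Filter.tendsto_id.atTop_mul_const hx).eventually_ge_atTop c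

/-- the value of the effective edge -/
theorem asy (k K η : ℝ) (hk : 0 < k) (hK : 1 ≤ K) (hη1 : η ≤ 1) (ε : ℝ) (hε : 0 < ε) :
    ∃ σ0 : ℝ, 0 < σ0 ∧ σ0 ≤ 1 ∧ ∀ (μ : Measure ℝ) [IsProbabilityMeasure μ],
      μ (Set.Icc (-1) 1)ᶜ = 0 → ∀ v : ℝ, 0 ≤ v → v ≤ 1 →
      ∫ t, max (-1) (min 1 t) ∂μ = 0 → ∫ t, (max (-1) (min 1 t)) ^ 2 ∂μ = v →
      ∀ σ : ℝ, 0 < σ → σ ≤ σ0 → ∀ Es : ℝ,
      (∀ (L : ℕ) [NeZero L], (L : ℝ) * (σ ^ 2 * Real.log (1 / σ)) ≤ k →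
        ∃ G : Set (T 3 L → ℝ), MeasurableSet G ∧
          1 - Real.exp (-(k / (L * σ ^ 2))) ≤
            (Measure.pi fun _ : T 3 L => μ).real G ∧
          ∀ V ∈ G, AE.Core.FlatE σ η (K / (L : ℝ) ^ 2) Es V) →
      |Es + σ ^ 2 * (v * Gd 3)| ≤ ε * σ ^ 2 := by
  obtain ⟨A, hA, HA⟩ := Mg.green3
  obtain ⟨C2, hC2, Hflat⟩ := AE.Core2.gen 3 (by norm_num)
  obtain ⟨C3, hC3, Hel⟩ := LO.El.el 3 (by norm_num)
  have hG := Gd_nonneg 3
  obtain ⟨G, hGd⟩ : ∃ G : ℝ, G = Gd 3 := ⟨_, rfl⟩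
  rw [← hGd] at hG
  obtain ⟨e, he, he24, heε⟩ := consts G hG ε hε
  obtain ⟨t0, M, ht0, hM, HFL⟩ := FL_lim 3 le_rfl e he
  obtain ⟨δ, hδd⟩ : ∃ δ : ℝ, δ = min e (min (1 / 8) (1 / C2)) := ⟨_, rfl⟩
  have hC20 : 0 < C2 := by linarith
  have hA0 : 0 < A := by linarith
  have hδ : 0 < δ := by rw [hδd]; positivity
  have hδe : δ ≤ e := by rw [hδd]; exact min_le_left _ _
  have hδ8 : δ ≤ 1 / 8 := by rw [hδd]; exact (min_le_right _ _).trans (min_le_left _ _)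
  have hδ2 : δ ≤ 1 / C2 := by rw [hδd]; exact (min_le_right _ _).trans (min_le_right _ _)
  have ht : 0 < min t0 1 := lt_min ht0 one_pos
  have hev : ∀ᶠ b : ℝ in Filter.atTop, 1 ≤ b ∧ 4 * M ≤ b * 1 ∧ M ≤ b * min t0 1 ∧ 16 ≤ b * e ^ 2 ∧
      64 ≤ b * ((min t0 1) ^ 2 * e ^ 2) ∧ 1 ≤ b * (e * (min t0 1) ^ 2) ∧ 1 + K + C3 ≤ b * e ∧
      1 ≤ b * t0 ∧ b ^ 9 * Real.exp (-(δ ^ 2 / (576 * A) * b)) ≤ 1 / 64 ∧
      b ^ 2 * Real.exp (-(δ ^ 2 / (576 * A) * b)) ≤ e / 4 ∧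
      b ^ 0 * Real.exp (-(k / 2 * b)) ≤ 1 / 4 ∧ 8 / k ≤ Real.sqrt b :=
    (Filter.eventually_ge_atTop 1).and <| (ev_lin _ _ one_pos).and <| (ev_lin _ _ ht).and <|
      (ev_lin _ _ (by positivity)).and <| (ev_lin _ _ (by positivity)).and <|
      (ev_lin _ _ (by positivity)).and <| (ev_lin _ _ he).and <| (ev_lin _ _ ht0).and <|
      (ev_exp _ (by positivity) 9 _ (by norm_num)).and <|
      (ev_exp _ (by positivity) 2 _ (by positivity)).and <|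
      (ev_exp _ (by positivity) 0 _ (by norm_num)).and <|
      (Real.tendsto_sqrt_atTop.eventually_ge_atTop _)
  obtain ⟨b0, hb0⟩ := Filter.eventually_atTop.1 hev
  obtain ⟨B, hB⟩ : ∃ B : ℝ, B = max b0 1 := ⟨_, rfl⟩
  have hB1 : 1 ≤ B := by rw [hB]; exact le_max_right _ _
  have hBb : b0 ≤ B := by rw [hB]; exact le_max_left _ _
  refine ⟨1 / B ^ 2, by positivity, ?_, ?_⟩
  · rw [div_le_one (by positivity)]
    exact one_le_pow₀ hB1
  intro μ _ hμ v hv0 hv1 hm1 hm2 σ hσ hσ0 Es hT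
  obtain ⟨b, hbd⟩ : ∃ b : ℝ, b = 1 / Real.sqrt σ := ⟨_, rfl⟩
  have hsσ : 0 < Real.sqrt σ := Real.sqrt_pos.2 hσ
  have hb : 0 < b := by rw [hbd]; positivity
  have hσb : σ = 1 / b ^ 2 := by
    rw [hbd, div_pow, Real.sq_sqrt hσ.le]
    field_simp
  have hBle : B ≤ b := by
    rw [hσb] at hσ0
    have h1 : B ^ 2 ≤ b ^ 2 := (one_div_le_one_div (by positivity) (by positivity)).1 hσ0
    exact le_of_sq_le_sq h1 hb.le
  obtain ⟨hb1, c1, c2, c3, c4, c5, c6, c7, c8, c9, c10, c11⟩ := hb0 b (hBb.trans hBle)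
  obtain ⟨L, hLd⟩ : ∃ L : ℕ, L = ⌈b ^ 3⌉₊ := ⟨_, rfl⟩
  have hL : b ^ 3 ≤ L := by rw [hLd]; exact Nat.le_ceil _
  have hb3 : 1 ≤ b ^ 3 := one_le_pow₀ hb1
  have hL2 : (L : ℝ) ≤ 2 * b ^ 3 := by
    have h1 := (Nat.ceil_lt_add_one (by positivity : 0 ≤ b ^ 3)).le
    rw [← hLd] at h1
    linarith
  have hL0 : L ≠ 0 := by
    intro h
    rw [h] at hL
    norm_num at hL
    linarith
  have : NeZero L := ⟨hL0⟩
  have hLp : (0 : ℝ) < L := AE.Core.L_pos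
  have hσ1 : σ ≤ 1 := by
    rw [hσb, div_le_one (by positivity)]
    exact one_le_pow₀ hb1
  have hcond : (L : ℝ) * (σ ^ 2 * Real.log (1 / σ)) ≤ k := by
    have h1 : Real.log (1 / σ) ≤ 4 * Real.sqrt b := by
      rw [hσb, one_div_one_div, Real.log_pow]
      have h2 : Real.log b = 2 * Real.log (Real.sqrt b) := by
        rw [Real.log_sqrt hb.le]
        ring
      have h3 : Real.log (Real.sqrt b) ≤ Real.sqrt b :=
        (Real.log_le_sub_one_of_pos (Real.sqrt_pos.2 hb)).trans (by linarith)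
      rw [h2]
      push_cast
      linarith
    have h4 : 0 < Real.sqrt b := Real.sqrt_pos.2 hb
    have h5 : Real.sqrt b * Real.sqrt b = b := Real.mul_self_sqrt hb.le
    have hlog0 : 0 ≤ Real.log (1 / σ) := Real.log_nonneg (by
      rw [le_div_iff₀ hσ]
      linarith)
    have hlog1 : 0 ≤ σ ^ 2 * Real.log (1 / σ) := mul_nonneg (sq_nonneg _) hlog0
    calc (L : ℝ) * (σ ^ 2 * Real.log (1 / σ)) ≤ 2 * b ^ 3 * (σ ^ 2 * (4 * Real.sqrt b)) := by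
          gcongr
      _ = 8 / Real.sqrt b := by
          obtain ⟨y, hy⟩ : ∃ y : ℝ, y = Real.sqrt b := ⟨_, rfl⟩
          rw [← hy] at h4 h5 ⊢
          rw [hσb, ← h5]
          field_simp
          norm_num
      _ ≤ k := by
          rw [div_le_iff₀ h4]
          rw [div_le_iff₀ hk] at c11
          linarith
  obtain ⟨G0, hG0, hP0, hF0⟩ := hT L hcond
  have hP0' : 1 / 2 < (Measure.pi fun _ : T 3 L => μ).real G0 := by
    have h1 : Real.exp (-(k / (L * σ ^ 2))) ≤ 1 / 4 := by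
      refine le_trans ?_ c10
      rw [pow_zero, one_mul]
      refine Real.exp_le_exp.2 (neg_le_neg ?_)
      rw [le_div_iff₀ (by positivity)]
      calc k / 2 * b * (L * σ ^ 2) ≤ k / 2 * b * (2 * b ^ 3 * σ ^ 2) := by gcongr
        _ = k := by
          rw [hσb]
          field_simp
    linarith
  have hF0' : ∀ V ∈ G0, AE.Core.FlatE σ 1 (K / (L : ℝ) ^ 2) Es V := by
    intro V hV
    obtain ⟨E0, ψ, h1, h2, h3, h4⟩ := hF0 V hV
    exact ⟨E0, ψ, h1, fun x => ⟨(h2 x).1, (h2 x).2.trans (by linarith)⟩, h3, h4⟩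
  have hlo := low_e K hK e he (by linarith) b t0 M G hG hGd ht0 HFL μ hμ v hv0 hv1 hm1 hm2 σ Es hσ
    hσ1 hb hb1 hσb L hL (by linarith) c2 c3 c4 c5 (by linarith) G0 hG0 hP0' hF0'
  have hup := up_e A hA HA C2 (fun L _ lam η E => Hflat L lam η E) C3
    (fun μ _ lam L L0 _ _ => Hel μ lam L L0) K δ e hδ hδ8 hδ2 hδe he24 b t0 M G hG hGd ht0 HFL μ hμ
    v hv0 hv1 hm1 hm2 σ Es hσ hb hb1 hσb L hL hL2 (by linarith) c7 c8 c9 c6 G0 hG0 hP0' hF0'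
  have hs2 : 0 < σ ^ 2 := by positivity
  rw [← hGd, abs_le]
  constructor
  · have h1 : (36 * G + 39) * e ≤ ε := by nlinarith
    have h2 : σ ^ 2 * (v * G + (36 * G + 39) * e) ≤ σ ^ 2 * (v * G + ε) := by gcongr
    nlinarith
  · have h1 : (3 * G + 11) * e ≤ ε := by nlinarith
    have h2 : σ ^ 2 * (v * G - ε) ≤ σ ^ 2 * (v * G - (3 * G + 11) * e) := by gcongr
    nlinarith

end Pool.Agent.Y663.M3.Asy
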