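import Pool.Agent.Y663.M3.Shift
import Pool.Agent.Y661.ED.Ene
import Pool.Agent.Results.MP_28b024_mp.MobilityEdgeScale

/-! Assembly: the three dimensional weak disorder theorem for `MP_28b024_mp` (helper663). -/

set_option autoImplicit false

open scoped BigOperators ENNReal
open MeasureTheory

namespace Pool.Agent.Y663.M3.Main

open Pool.Agent.Results.MP_28b024_mp.MobilityEdgeScale
open Pool.Agent.H4R2.LO (L2f IsGen)
open Pool.Agent.Y661.ED (Gd)

/-- the statement at one edge -/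
def Side (k K η : ℝ) (μ : Measure ℝ) (σ Es : ℝ) : Prop :=
  |Es| ≤ σ ∧
  (∀ κ : ℝ, K * (σ ^ 2 * Real.log (1 / σ)) ^ 2 ≤ κ → κ ≤ 1 →
    ∃ G : Set ((Fin 3 → ℤ) → ℝ), MeasurableSet G ∧
    1 - Real.exp (-(k * Real.sqrt κ / σ ^ 2)) / 2 ≤
      (Measure.infinitePi fun _ : Fin 3 → ℤ => μ).real G ∧
    ∀ ω ∈ G, ∀ κ' : ℝ, κ ≤ κ' → κ' ≤ 1 → ∀ E : ℝ, 2 * (3 : ℕ) + E ≤ Es + κ' →
      ∀ u : (Fin 3 → ℤ) → ℂ, IsGen (-1) (fun x => σ * ω x) E u → L2f u →
        ∀ x : Fin 3 → ℤ, ‖x‖ ≤ Real.exp (k * Real.sqrt κ / σ ^ 2) →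
          ‖u x‖ ^ 2 ≤ K * κ' ^ (((3 : ℕ) : ℝ) / 2) * ∑' y, ‖u y‖ ^ 2) ∧
  (∀ (L : ℕ) [NeZero L], (L : ℝ) * (σ ^ 2 * Real.log (1 / σ)) ≤ k →
    ∃ G : Set (T 3 L → ℝ), MeasurableSet G ∧
      1 - Real.exp (-(k / (L * σ ^ 2))) ≤
        (Measure.pi fun _ : T 3 L => μ).real G ∧
      ∀ V ∈ G, Pool.Agent.H4R2.AE.Core.FlatE σ η (K / (L : ℝ) ^ 2) Es V) ∧
  ∀ κ : ℝ, K * (σ ^ 2 * Real.log (1 / σ)) ^ 2 ≤ κ → κ ≤ 1 →
    ∀ᵐ ω ∂(Measure.infinitePi fun _ : Fin 3 → ℤ => μ),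
      Pool.Agent.H4R2.LO.Main.Dec 3 (-1) (fun x => σ * ω x) (Set.Iic (Es - 2 * (3 : ℕ) - κ))
        (k * Real.sqrt κ / Real.log (2 / (κ * σ)))

theorem side (M : ℝ) (hM : 0 < M) (η : ℝ) (hη : 0 < η) (hη' : η ≤ 1) :
    ∃ k K : ℝ, 0 < k ∧ k ≤ 1 / 2 ∧ 1 ≤ K ∧ ∃ Es : Measure ℝ → ℝ → ℝ,
      (∀ (μ : Measure ℝ) [IsProbabilityMeasure μ],
        μ (Set.Icc (-1) 1)ᶜ = 0 → μ ≤ ENNReal.ofReal M • (volume : Measure ℝ) →
        ∀ lam : ℝ, 0 < lam → lam ≤ k → Side k K η μ lam (Es μ lam)) ∧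
      ∀ ε : ℝ, 0 < ε → ∃ s0 : ℝ, 0 < s0 ∧ ∀ (μ : Measure ℝ) [IsProbabilityMeasure μ],
        μ (Set.Icc (-1) 1)ᶜ = 0 → μ ≤ ENNReal.ofReal M • (volume : Measure ℝ) →
        ∀ m v : ℝ, ∫ t, t ∂μ = m → ∫ t, (t - m) ^ 2 ∂μ = v →
        ∀ lam : ℝ, 0 < lam → lam ≤ s0 →
          |Es μ lam - (lam * m - lam ^ 2 * v * Gd 3)| ≤ ε * lam ^ 2 := by
  obtain ⟨k, K, hk, hk2, hK, H⟩ := Fin.fin (M + 4 * M ^ 2) (by positivity) η hη hη'
  have H' : ∀ (μ : Measure ℝ) [IsProbabilityMeasure μ],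
        μ (Set.Icc (-1) 1)ᶜ = 0 → μ ≤ ENNReal.ofReal M • (volume : Measure ℝ) →
        ∀ lam : ℝ, 0 < lam → lam ≤ k → ∃ E : ℝ, Side k K η μ lam E := by
    intro μ _ h1 h2 lam hlam hlk
    exact H μ h1 (Pool.Agent.H4R2.LO.Lw.reg_bdd μ M hM h1 h2) lam hlam hlk
  classical
  have hS : ∀ (μ : Measure ℝ) [IsProbabilityMeasure μ],
        μ (Set.Icc (-1) 1)ᶜ = 0 → μ ≤ ENNReal.ofReal M • (volume : Measure ℝ) →
        ∀ lam : ℝ, 0 < lam → lam ≤ k → Side k K η μ lam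
          (if h : ∃ E : ℝ, Side k K η μ lam E then h.choose else 0) := by
    intro μ _ h1 h2 lam hlam hlk
    have h := H' μ h1 h2 lam hlam hlk
    rw [dif_pos h]
    exact h.choose_spec
  refine ⟨k, K, hk, hk2, hK, fun μ lam => if h : ∃ E : ℝ, Side k K η μ lam E then h.choose else 0,
    hS, fun ε hε => ?_⟩
  obtain ⟨s0, hs0, -, hA⟩ := Shift.asy k K η hk hK hη' ε hε
  refine ⟨min s0 k, by positivity, ?_⟩
  intro μ _ h1 h2 m v hm hv lam hlam hls
  have h := hS μ h1 h2 lam hlam (hls.trans (min_le_right _ _))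
  exact hA μ h1 m v hm hv lam hlam (hls.trans (min_le_left _ _)) _ h.2.2.1

/-- **Theorem.** -/
theorem main (M : ℝ) (hM : 0 < M) (η : ℝ) (hη : 0 < η) (hη' : η ≤ 1) :
    ∃ k K : ℝ, 0 < k ∧ 0 < K ∧ ∃ Em Ep : Measure ℝ → ℝ → ℝ,
      (∀ (μ : Measure ℝ) [IsProbabilityMeasure μ],
        μ (Set.Icc (-1) 1)ᶜ = 0 → μ ≤ ENNReal.ofReal M • (volume : Measure ℝ) →
        ∀ lam : ℝ, 0 < lam → lam ≤ k →
        (|Em μ lam| ≤ lam ∧ |Ep μ lam - 12| ≤ lam) ∧
        (∀ κ : ℝ, K * lam ^ 4 * Real.log (1 / lam) ^ 2 ≤ κ → κ ≤ 1 →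
          (∀ᵐ ω ∂(Measure.infinitePi fun _ : Fin 3 → ℤ => μ),
            Localized (H lam ω) {E | E ≤ Em μ lam - κ ∨ Ep μ lam + κ ≤ E}
              (k * Real.sqrt κ / Real.log (2 / (κ * lam)))) ∧
          ∃ G : Set ((Fin 3 → ℤ) → ℝ), MeasurableSet G ∧
            1 - Real.exp (-(k * Real.sqrt κ / lam ^ 2)) ≤
              (Measure.infinitePi fun _ : Fin 3 → ℤ => μ).real G ∧
            ∀ ω ∈ G, ∀ κ' : ℝ, κ ≤ κ' → κ' ≤ 1 →
              ∀ E : ℝ, (E ≤ Em μ lam + κ' ∨ Ep μ lam - κ' ≤ E) →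
              ∀ u : (Fin 3 → ℤ) → ℂ, SqSummable u → (∀ y, H lam ω u y = (E : ℂ) * u y) →
              ∀ x : Fin 3 → ℤ, ‖x‖ ≤ Real.exp (k * Real.sqrt κ / lam ^ 2) →
                ‖u x‖ ^ 2 ≤ K * κ' ^ (3 / 2 : ℝ) * ∑' y, ‖u y‖ ^ 2) ∧
        ∀ (L : ℕ) [NeZero L], (L : ℝ) * (lam ^ 2 * Real.log (1 / lam)) ≤ k →
          (∃ G : Set (T 3 L → ℝ), MeasurableSet G ∧
            1 - Real.exp (-(k / (L * lam ^ 2))) ≤ (Measure.pi fun _ : T 3 L => μ).real G ∧
            ∀ V ∈ G, ExtendedGroundState lam η (K / (L : ℝ) ^ 2) (Em μ lam) V) ∧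
          ∃ G : Set (T 3 L → ℝ), MeasurableSet G ∧
            1 - Real.exp (-(k / (L * lam ^ 2))) ≤
              (Measure.pi fun _ : T 3 L => μ.map fun t => -t).real G ∧
            ∀ V ∈ G, ExtendedGroundState lam η (K / (L : ℝ) ^ 2) (12 - Ep μ lam) V) ∧
      ∀ ε : ℝ, 0 < ε → ∃ lam0 : ℝ, 0 < lam0 ∧ ∀ (μ : Measure ℝ) [IsProbabilityMeasure μ],
        μ (Set.Icc (-1) 1)ᶜ = 0 → μ ≤ ENNReal.ofReal M • (volume : Measure ℝ) →
        ∀ m v : ℝ, ∫ t, t ∂μ = m → ∫ t, (t - m) ^ 2 ∂μ = v →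
        ∀ lam : ℝ, 0 < lam → lam ≤ lam0 →
          |Em μ lam - (lam * m - lam ^ 2 * v * Gd 3)| ≤ ε * lam ^ 2 ∧
          |Ep μ lam - (12 + lam * m + lam ^ 2 * v * Gd 3)| ≤ ε * lam ^ 2 := by
  obtain ⟨k, K, hk, hk2, hK, Es, HS, HA⟩ := side M hM η hη hη'
  have hpr : ∀ (μ : Measure ℝ) [IsProbabilityMeasure μ],
      IsProbabilityMeasure (μ.map fun t : ℝ => -t) := fun μ _ =>
    Measure.isProbabilityMeasure_map measurable_neg.aemeasurable
  refine ⟨k, K, hk, by linarith, Es, fun μ lam => 12 - Es (μ.map fun t => -t) lam, ?_, ?_⟩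
  · intro μ _ hsupp hD lam hl hlk
    have hpr' := hpr μ
    obtain ⟨A0, A1, A2, A3⟩ := HS μ hsupp hD lam hl hlk
    obtain ⟨B0, B1, B2, B3⟩ := HS (μ.map fun t => -t) (supp_neg μ hsupp) (dens_neg μ M hD) lam hl hlk
    obtain ⟨Em, hEm⟩ : ∃ Em : ℝ, Em = Es μ lam := ⟨_, rfl⟩
    obtain ⟨E', hE'⟩ : ∃ E' : ℝ, E' = Es (μ.map fun t => -t) lam := ⟨_, rfl⟩
    rw [← hEm] at A0 A1 A2 A3
    rw [← hE'] at B0 B1 B2 B3
    rw [← hEm]
    simp only [← hE']
    have hlog : 0 < Real.log (1 / lam) := Real.log_pos (by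
      rw [lt_div_iff₀ hl]
      linarith)
    refine ⟨⟨A0, ?_⟩, fun κ hκ hκ1 => ?_, fun L _ hL => ⟨?_, ?_⟩⟩
    · rw [show 12 - E' - 12 = -E' by ring, abs_neg]
      exact B0
    · have hκ' : K * (lam ^ 2 * Real.log (1 / lam)) ^ 2 ≤ κ := by
        refine le_trans (le_of_eq ?_) hκ
        ring
      have hκ0 : 0 < κ := lt_of_lt_of_le (by positivity) hκ'
      have hbase : 2 ≤ 2 / (κ * lam) := by
        rw [le_div_iff₀ (by positivity)]
        have : κ * lam ≤ 1 := by nlinarith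
        linarith
      have hX : 0 < Real.log (2 / (κ * lam)) := Real.log_pos (by linarith)
      constructor
      · have hB : ∀ᵐ ω ∂(Measure.infinitePi fun _ : Fin 3 → ℤ => μ),
            Pool.Agent.H4R2.LO.Main.Dec 3 (-1) (fun x => -(lam * ω x))
              (Set.Iic (E' - 2 * (3 : ℕ) - κ)) (k * Real.sqrt κ / Real.log (2 / (κ * lam))) := by
          have h3 := B3 κ hκ' hκ1
          rw [← law_neg 3 μ] at h3
          have hm2 : Measurable (fun (ω : (Fin 3 → ℤ) → ℝ) x => -ω x) := by fun_prop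
          filter_upwards [ae_of_ae_map hm2.aemeasurable h3] with ω hω
          have : (fun x => -(lam * ω x)) = fun x => lam * -ω x := by
            funext x; ring
          rw [this]
          exact hω
        filter_upwards [A3 κ hκ' hκ1, hB] with ω hω hω'
        apply localized_of lam ω _ _ (by positivity)
        have e1 := Pool.Agent.H4R2.LO.Main.dec_shift (-1) (2 * (3 : ℕ)) _ _ _ hω
        have e0 := Pool.Agent.H4R2.LO.Main.dec_stag _ _ _ _ hω'
        rw [neg_neg] at e0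
        have e2 := Pool.Agent.H4R2.LO.Main.dec_shift (-1) (2 * (3 : ℕ)) _ _ _
          (Pool.Agent.H4R2.LO.Main.dec_neg 1 _ _ _ e0)
        simp only [neg_neg] at e2
        refine Pool.Agent.H4R2.LO.Main.dec_mono _ _ _ _ _ _
          (Pool.Agent.H4R2.LO.Main.dec_union _ _ _ _ _ e1 e2) ?_ le_rfl
        rintro E (hE | hE)
        · left
          simp only [Set.mem_ofPred_eq, Set.mem_Iic]
          linarith
        · right
          simp only [Set.mem_ofPred_eq, Set.mem_Iic]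
          push_cast
          linarith
      · obtain ⟨G1, hG1, hP1, hF1⟩ := A1 κ hκ' hκ1
        obtain ⟨G2, hG2, hP2, hF2⟩ := B1 κ hκ' hκ1
        have hmn : Measurable (fun (ω : (Fin 3 → ℤ) → ℝ) x => -ω x) := by fun_prop
        refine ⟨G1 ∩ (fun (ω : (Fin 3 → ℤ) → ℝ) x => -ω x) ⁻¹' G2, hG1.inter (hmn hG2), ?_, ?_⟩
        · have hP2' : 1 - Real.exp (-(k * Real.sqrt κ / lam ^ 2)) / 2 ≤
              (Measure.infinitePi fun _ : Fin 3 → ℤ => μ).real
                ((fun (ω : (Fin 3 → ℤ) → ℝ) x => -ω x) ⁻¹' G2) := by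
            rw [← map_measureReal_apply hmn hG2, law_neg 3 μ]
            exact hP2
          have h1 := measureReal_union_le (μ := Measure.infinitePi fun _ : Fin 3 → ℤ => μ) G1ᶜ
            ((fun (ω : (Fin 3 → ℤ) → ℝ) x => -ω x) ⁻¹' G2)ᶜ
          rw [← Set.compl_inter, probReal_compl_eq_one_sub (hG1.inter (hmn hG2)),
            probReal_compl_eq_one_sub hG1, probReal_compl_eq_one_sub (hmn hG2)] at h1
          linarith
        · intro ω hω κ' hκκ' hκ'1 E hE u hu hEu x hx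
          rcases hE with hE | hE
          · have hg : IsGen (-1) (fun x => lam * ω x) (E - 6) u := by
              rw [H_eq] at hEu
              have h2 := Pool.Agent.H4R2.LO.Main.shift_gen (-1) (-(2 * (3 : ℕ)))
                (fun x => lam * ω x + 2 * (3 : ℕ)) E u hEu
              simp only [add_neg_cancel_right] at h2
              have e : E + -(2 * ((3 : ℕ) : ℝ)) = E - 6 := by
                push_cast
                ring
              rw [e] at h2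
              exact h2
            have h3 := hF1 ω hω.1 κ' hκκ' hκ'1 (E - 6) (by push_cast; linarith) u hg hu x hx
            simpa using h3
          · have hf := flip lam E ω u hEu
            have hn : ∀ y, ‖Pool.Agent.H4R2.LO.Main.sgn y * u y‖ = ‖u y‖ := fun y => by
              rw [norm_mul, Pool.Agent.H4R2.LO.Main.sgn_norm, one_mul]
            have hu' : SqSummable (fun y => Pool.Agent.H4R2.LO.Main.sgn y * u y) := by
              unfold SqSummable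
              simp only [hn]
              exact hu
            have hg : IsGen (-1) (fun x => lam * -ω x) (12 - E - 6)
                (fun y => Pool.Agent.H4R2.LO.Main.sgn y * u y) := by
              rw [H_eq] at hf
              have h2 := Pool.Agent.H4R2.LO.Main.shift_gen (-1) (-(2 * (3 : ℕ)))
                (fun x => lam * -ω x + 2 * (3 : ℕ)) _ _ hf
              simp only [add_neg_cancel_right] at h2
              have e : 4 * ((3 : ℕ) : ℝ) - E + -(2 * ((3 : ℕ) : ℝ)) = 12 - E - 6 := by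
                push_cast
                ring
              rw [e] at h2
              exact h2
            have h3 := hF2 _ hω.2 κ' hκκ' hκ'1 (12 - E - 6) (by push_cast; linarith) _ hg hu' x hx
            simp only [hn] at h3
            simpa using h3
    · obtain ⟨G, hG, hP, h⟩ := A2 L hL
      exact ⟨G, hG, hP, fun V hV => extended_of (h V hV)⟩
    · obtain ⟨G, hG, hP, h⟩ := B2 L hL
      refine ⟨G, hG, hP, fun V hV => ?_⟩
      rw [show 12 - (12 - E') = E' by ring]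
      exact extended_of (h V hV)
  · intro ε hε
    obtain ⟨s0, hs0, hA⟩ := HA ε hε
    refine ⟨s0, hs0, fun μ hμ hsupp hD m v hm hv lam hl hls => ?_⟩
    have hpr' := hpr μ
    refine ⟨hA μ hsupp hD m v hm hv lam hl hls, ?_⟩
    have h1 := hA (μ.map fun t => -t) (supp_neg μ hsupp) (dens_neg μ M hD) (-m) v (by
      rw [integral_map (f := fun t : ℝ => t) measurable_neg.aemeasurable
        measurable_id.aestronglyMeasurable, integral_neg, hm]) (by
      rw [integral_map measurable_neg.aemeasurable (by fun_prop), ← hv]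
      exact integral_congr_ae (Filter.Eventually.of_forall fun t => by
        show (-t - -m) ^ 2 = (t - m) ^ 2
        ring)) lam hl hls
    refine le_trans (le_of_eq ?_) h1
    rw [← abs_neg]
    congr 1
    ring

end Pool.Agent.Y663.M3.Main
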