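import Pool.Agent.Y661.ED.Prob
import Pool.Agent.Y661.ED.Det
import Pool.Agent.W193.BK.ES
import Pool.Agent.Y663.D2.En2

/-! Second moments of the quadratic form of the free resolvent, bounded laws (helper663). -/

set_option autoImplicit false

open scoped BigOperators ENNReal
open MeasureTheory

namespace Pool.Agent.Y663.M3.Quad

open Pool.Agent.H4R2.AE (T LapW Hop)
open Pool.Agent.H4R2.AE.Good (clamp)
open Pool.Agent.W788.MFP
open Pool.Agent.Y661.ED (gg gg_eq mt FL NN NN_pos NN_eq mt_pos)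

variable {d L : ℕ} [NeZero L]

/-- the resolvent has norm `1/t` on bounded functions -/
theorem gg_bd (t : ℝ) (ht : 0 < t) (V : T d L → ℝ) (b : ℝ) (hV : ∀ x, |V x| ≤ b) (x : T d L) :
    |gg t V x| ≤ b / t := by
  have key : ∀ V : T d L → ℝ, (∀ x, |V x| ≤ b) → ∀ x, gg t V x ≤ b / t := by
    intro V hV x
    have h1 := Pool.Agent.H4R2.AE.Lin.nonneg (fun _ : T d L => (1 : ℝ)) (fun _ => t)
      (fun y => b / t - gg t V y) (fun _ => one_pos) (fun _ => ht) (by
        intro y
        have h2 := gg_eq t ht V y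
        have h3 : LapW (fun _ => (1 : ℝ)) (fun y => b / t - gg t V y) y =
            -LapW (fun _ => 1) (gg t V) y := by
          unfold LapW
          rw [← Finset.sum_neg_distrib]
          exact Finset.sum_congr rfl fun i _ => by ring
        rw [h3]
        have h4 : t * (b / t - gg t V y) = b - t * gg t V y := by field_simp
        have h5 := (abs_le.1 (hV y)).2
        linarith) x
    linarith
  have hneg : ∀ x, gg t (fun y => -V y) x = -gg t V x := by
    intro x
    unfold gg Four.Op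
    rw [← Finset.sum_neg_distrib]
    exact Finset.sum_congr rfl fun y _ => by ring
  have h1 := key V hV x
  have h2 := key (fun y => -V y) (fun y => by rw [abs_neg]; exact hV y) x
  rw [hneg] at h2
  rw [abs_le]
  constructor <;> linarith

theorem K0 (t : ℝ) : Four.K (mt (d := d) (L := L) t) 0 = FL d L t := by
  unfold Four.K FL Four.NN
  congr 1
  refine Finset.sum_congr rfl fun k _ => ?_
  have h2 : Four.e k (0 : T d L) = 1 := Four.e_zero k
  rw [h2, Complex.one_re, mul_one]
  rfl

theorem gg_symm (t : ℝ) (a b : T d L → ℝ) : ∑ x, a x * gg t b x = ∑ x, b x * gg t a x := by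
  unfold gg Four.Op
  simp only [Finset.mul_sum]
  rw [Finset.sum_comm]
  refine Finset.sum_congr rfl fun x _ => Finset.sum_congr rfl fun y _ => ?_
  have h := Four.K_neg (mt (d := d) (L := L) t) (x - y)
  rw [neg_sub] at h
  rw [h]
  ring

/-- the normalised quadratic form -/
noncomputable def Aq (t : ℝ) (V : T d L → ℝ) : ℝ :=
  (NN d L)⁻¹ * ∑ x, clamp V x * gg t (clamp V) x

theorem Aq_cont (t : ℝ) : Continuous (Aq (d := d) (L := L) t) := by
  unfold Aq gg Four.Op
  refine continuous_const.mul (continuous_finsetSum _ fun x _ => ?_)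
  refine (Pool.Agent.Y663.D2.En.cont_clamp x).mul (continuous_finsetSum _ fun y _ => ?_)
  exact continuous_const.mul (Pool.Agent.Y663.D2.En.cont_clamp y)

omit [NeZero L] in
theorem cl (V : T d L → ℝ) (x : T d L) : |clamp V x| ≤ 1 := by
  exact Pool.Agent.H4R2.AE.Good.good_clamp_le V x

theorem Aq_bd (t : ℝ) (ht : 0 < t) (V : T d L → ℝ) : |Aq t V| ≤ 1 / t := by
  unfold Aq
  have hN : 0 < NN d L := NN_pos
  rw [abs_mul, abs_of_pos (inv_pos.2 hN), inv_mul_le_iff₀ hN]
  refine (Finset.abs_sum_le_sum_abs _ _).trans ?_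
  have h1 : ∀ x ∈ Finset.univ, |clamp V x * gg t (clamp V) x| ≤ 1 / t := by
    intro x _
    rw [abs_mul]
    calc |clamp V x| * |gg t (clamp V) x| ≤ 1 * (1 / t) :=
          mul_le_mul (cl V x) (gg_bd t ht _ 1 (cl V) x) (abs_nonneg _) (by norm_num)
      _ = 1 / t := one_mul _
  refine (Finset.sum_le_sum h1).trans (le_of_eq ?_)
  unfold NN
  rw [Finset.sum_const, Finset.sum_const, nsmul_eq_mul, nsmul_eq_mul]
  ring

theorem Aq_diff (t : ℝ) (ht : 0 < t) (V : T d L → ℝ) (z : T d L) :
    |Aq t V - Aq t (Function.update V z 0)| ≤ (NN d L)⁻¹ * (2 / t) := by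
  have hN : 0 < NN d L := NN_pos
  set V' := Function.update V z 0 with hV'
  have h0 : ∀ x, x ≠ z → clamp V' x = clamp V x := by
    intro x hx
    unfold clamp
    rw [hV', Function.update_of_ne hx]
  have hz : clamp V' z = 0 := by
    unfold clamp
    rw [hV', Function.update_self]
    norm_num
  have h1 : ∑ x, clamp V x * gg t (clamp V) x - ∑ x, clamp V' x * gg t (clamp V') x =
      clamp V z * (gg t (clamp V) z + gg t (clamp V') z) := by
    have h2 := gg_symm t (clamp V') (clamp V)
    have h3 : ∑ x, clamp V x * gg t (clamp V) x - ∑ x, clamp V' x * gg t (clamp V') x =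
        ∑ x, (clamp V x - clamp V' x) * (gg t (clamp V) x + gg t (clamp V') x) := by
      have h4 : ∑ x, (clamp V x - clamp V' x) * (gg t (clamp V) x + gg t (clamp V') x) =
          ∑ x, clamp V x * gg t (clamp V) x + ∑ x, clamp V x * gg t (clamp V') x -
          ∑ x, clamp V' x * gg t (clamp V) x - ∑ x, clamp V' x * gg t (clamp V') x := by
        rw [← Finset.sum_add_distrib, ← Finset.sum_sub_distrib, ← Finset.sum_sub_distrib]
        exact Finset.sum_congr rfl fun x _ => by ring
      rw [h4, h2]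
      ring
    rw [h3, Finset.sum_eq_single z]
    · rw [hz, sub_zero]
    · intro x _ hx
      rw [h0 x hx]
      ring
    · intro h
      exact absurd (Finset.mem_univ z) h
  unfold Aq
  rw [← mul_sub, h1, abs_mul, abs_of_pos (inv_pos.2 hN)]
  refine mul_le_mul_of_nonneg_left ?_ (inv_pos.2 hN).le
  rw [abs_mul]
  have h5 := gg_bd t ht _ 1 (cl V) z
  have h6 := gg_bd t ht _ 1 (cl V') z
  calc |clamp V z| * |gg t (clamp V) z + gg t (clamp V') z| ≤ 1 * (1 / t + 1 / t) :=
        mul_le_mul (cl V z) ((abs_add_le _ _).trans (add_le_add h5 h6)) (abs_nonneg _)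
          (by norm_num)
    _ = 2 / t := by ring

/-- mixed second moments -/
theorem mom (μ : Measure ℝ) [IsProbabilityMeasure μ] (v : ℝ)
    (hm1 : ∫ t, max (-1) (min 1 t) ∂μ = 0) (hm2 : ∫ t, (max (-1) (min 1 t)) ^ 2 ∂μ = v)
    (x y : T d L) : ∫ V, clamp V x * clamp V y ∂(Measure.pi fun _ : T d L => μ) =
      if x = y then v else 0 := by
  split_ifs with h
  · subst h
    rw [← hm2, ← Pool.Agent.Y663.D2.En.one_coord μ (fun s => s ^ 2) (by fun_prop) x]
    exact integral_congr_ae (Filter.Eventually.of_forall fun V => by ring)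
  · have h1 := Pool.Agent.H4R2.AE.Ent.en_resample μ x (fun V : T d L → ℝ => clamp V x * clamp V y)
      ((Pool.Agent.Y663.D2.En.cont_clamp x).mul (Pool.Agent.Y663.D2.En.cont_clamp y)).measurable 1
      (fun V => by
        rw [abs_mul]
        exact mul_le_one₀ (cl V x) (abs_nonneg _) (cl V y))
    rw [h1]
    have h2 : ∀ (V : T d L → ℝ) (s : ℝ), clamp (Function.update V x s) x * clamp (Function.update V x s) y =
        max (-1) (min 1 s) * clamp V y := by
      intro V s
      unfold clamp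
      rw [Function.update_self, Function.update_of_ne (Ne.symm h)]
    simp only [h2]
    have h3 : ∀ V : T d L → ℝ, ∫ s, max (-1) (min 1 s) * clamp V y ∂μ = 0 := by
      intro V
      rw [integral_mul_const, hm1, zero_mul]
    simp only [h3]
    exact integral_zero _ _

theorem int_prod (μ : Measure ℝ) [IsProbabilityMeasure μ] (x y : T d L) :
    Integrable (fun V : T d L → ℝ => clamp V x * clamp V y) (Measure.pi fun _ : T d L => μ) :=
  Integrable.of_bound (C := 1) ((Pool.Agent.Y663.D2.En.cont_clamp x).mul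
    (Pool.Agent.Y663.D2.En.cont_clamp y)).measurable.aestronglyMeasurable
    (Filter.Eventually.of_forall fun V => by
      rw [Real.norm_eq_abs, abs_mul]
      exact mul_le_one₀ (cl V x) (abs_nonneg _) (cl V y))

theorem Aq_mean (μ : Measure ℝ) [IsProbabilityMeasure μ] (v : ℝ)
    (hm1 : ∫ t, max (-1) (min 1 t) ∂μ = 0) (hm2 : ∫ t, (max (-1) (min 1 t)) ^ 2 ∂μ = v) (t : ℝ) :
    ∫ V, Aq t V ∂(Measure.pi fun _ : T d L => μ) = v * FL d L t := by
  have hN : 0 < NN d L := NN_pos
  unfold Aq
  rw [integral_const_mul, integral_finsetSum _ (fun x _ => by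
    have e : (fun V : T d L → ℝ => clamp V x * gg t (clamp V) x) = fun V =>
        ∑ y, Four.K (mt t) (x - y) * (clamp V x * clamp V y) := by
      funext V
      unfold gg Four.Op
      rw [Finset.mul_sum]
      exact Finset.sum_congr rfl fun y _ => by ring
    rw [e]
    exact integrable_finsetSum _ fun y _ => (int_prod μ x y).const_mul _)]
  have h1 : ∀ x : T d L, ∫ V, clamp V x * gg t (clamp V) x ∂(Measure.pi fun _ : T d L => μ) =
      v * FL d L t := by
    intro x
    have e : (fun V : T d L → ℝ => clamp V x * gg t (clamp V) x) = fun V =>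
        ∑ y, Four.K (mt t) (x - y) * (clamp V x * clamp V y) := by
      funext V
      unfold gg Four.Op
      rw [Finset.mul_sum]
      exact Finset.sum_congr rfl fun y _ => by ring
    rw [e, integral_finsetSum _ fun y _ => (int_prod μ x y).const_mul _, Finset.sum_eq_single x]
    · rw [integral_const_mul, mom μ v hm1 hm2, if_pos rfl, sub_self, K0]
      ring
    · intro y _ hy
      rw [integral_const_mul, mom μ v hm1 hm2, if_neg (Ne.symm hy), mul_zero]
    · intro h
      exact absurd (Finset.mem_univ x) h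
  simp only [h1]
  unfold NN at hN ⊢
  rw [Finset.sum_const, nsmul_eq_mul]
  rw [Finset.sum_const, nsmul_eq_mul, mul_one] at hN ⊢
  field_simp

/-- Chebyshev -/
theorem cheb {Ω : Type*} [MeasurableSpace Ω] (P : Measure Ω) [IsProbabilityMeasure P] (X : Ω → ℝ)
    (hX : Integrable (fun ω => X ω ^ 2) P) (a : ℝ) (ha : 0 < a) :
    P.real {ω | a ≤ |X ω|} ≤ (∫ ω, X ω ^ 2 ∂P) / a ^ 2 := by
  have h1 := mul_meas_ge_le_integral_of_nonneg (μ := P)
    (Filter.Eventually.of_forall fun ω => sq_nonneg (X ω)) hX (a ^ 2)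
  have h2 : {ω | a ≤ |X ω|} = {ω | a ^ 2 ≤ X ω ^ 2} := by
    ext ω
    simp only [Set.mem_ofPred_eq]
    rw [← sq_abs (X ω)]
    exact (pow_le_pow_iff_left₀ ha.le (abs_nonneg _) two_ne_zero).symm
  rw [h2, le_div_iff₀ (by positivity), mul_comm]
  exact h1

/-- concentration of the quadratic form -/
theorem quad (μ : Measure ℝ) [IsProbabilityMeasure μ] (v : ℝ)
    (hm1 : ∫ t, max (-1) (min 1 t) ∂μ = 0) (hm2 : ∫ t, (max (-1) (min 1 t)) ^ 2 ∂μ = v) (t : ℝ)
    (ht : 0 < t) (a : ℝ) (ha : 0 < a) :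
    (Measure.pi fun _ : T d L => μ).real {V | a ≤ |Aq t V - v * FL d L t|} ≤
      4 / (t ^ 2 * NN d L * a ^ 2) := by
  have hN : 0 < NN d L := NN_pos
  set P := Measure.pi fun _ : T d L => μ with hP
  have hbd : ∀ V, |Aq (d := d) (L := L) t V| ≤ 1 / t := Aq_bd t ht
  have hmean := Aq_mean (d := d) (L := L) μ v hm1 hm2 t
  rw [← hP] at hmean
  have hint : Integrable (fun V => (Aq (d := d) (L := L) t V - v * FL d L t) ^ 2) P := by
    refine Integrable.of_bound (C := (1 / t + |v * FL d L t|) ^ 2)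
      (((Aq_cont t).sub continuous_const).pow 2).measurable.aestronglyMeasurable
      (Filter.Eventually.of_forall fun V => ?_)
    rw [Real.norm_eq_abs, abs_pow]
    refine pow_le_pow_left₀ (abs_nonneg _) ?_ 2
    exact (abs_sub _ _).trans (add_le_add (hbd V) le_rfl)
  refine (cheb P _ hint a ha).trans ?_
  rw [div_le_div_iff₀ (by positivity) (by positivity)]
  have hes := Pool.Agent.W193.BK.ES.es (T d L) μ (fun V => ((Aq t V : ℝ) : ℂ))
    (Complex.continuous_ofReal.comp (Aq_cont t)) ⟨1 / t, fun V => by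
      rw [Complex.norm_real]
      exact hbd V⟩
  unfold Pool.Agent.W788.BK.PP at hes
  rw [← hP] at hes
  have hcm : ∫ U, ((Aq t U : ℝ) : ℂ) ∂P = ((v * FL d L t : ℝ) : ℂ) := by
    rw [← hmean]
    exact integral_ofReal
  rw [hcm] at hes
  have e1 : ∀ V : T d L → ℝ, ‖((Aq t V : ℝ) : ℂ) - ((v * FL d L t : ℝ) : ℂ)‖ ^ 2 =
      (Aq t V - v * FL d L t) ^ 2 := by
    intro V
    rw [← Complex.ofReal_sub, Complex.norm_real, Real.norm_eq_abs, sq_abs]
  have e2 : ∀ z : T d L, ∫ V, ‖((Aq t V : ℝ) : ℂ) - ((Aq t (Function.update V z 0) : ℝ) : ℂ)‖ ^ 2 ∂P ≤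
      ((NN d L)⁻¹ * (2 / t)) ^ 2 := by
    intro z
    have h1 : ∫ V, ‖((Aq t V : ℝ) : ℂ) - ((Aq t (Function.update V z 0) : ℝ) : ℂ)‖ ^ 2 ∂P ≤
        ∫ _V, ((NN d L)⁻¹ * (2 / t)) ^ 2 ∂P := by
      refine integral_mono_of_nonneg (Filter.Eventually.of_forall fun V => by positivity)
        (integrable_const _) (Filter.Eventually.of_forall fun V => ?_)
      simp only
      rw [← Complex.ofReal_sub, Complex.norm_real, Real.norm_eq_abs]
      exact pow_le_pow_left₀ (abs_nonneg _) (Aq_diff t ht V z) 2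
    refine h1.trans (le_of_eq ?_)
    simp
  simp only [e1] at hes
  have h3 := hes.trans (Finset.sum_le_sum fun z _ => e2 z)
  have h4 : ∑ _z : T d L, ((NN d L)⁻¹ * (2 / t)) ^ 2 = 4 / (t ^ 2 * NN d L) := by
    rw [Finset.sum_const, nsmul_eq_mul]
    have h5 : ((Finset.univ : Finset (T d L)).card : ℝ) = NN d L := by
      unfold NN
      rw [Finset.sum_const, nsmul_eq_mul, mul_one]
    rw [h5]
    field_simp
    norm_num
  rw [h4] at h3
  calc (∫ ω, (Aq t ω - v * FL d L t) ^ 2 ∂P) * (t ^ 2 * NN d L * a ^ 2)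
      ≤ 4 / (t ^ 2 * NN d L) * (t ^ 2 * NN d L * a ^ 2) := by gcongr
    _ = 4 * a ^ 2 := by field_simp

/-- concentration of the average -/
theorem avg (μ : Measure ℝ) [IsProbabilityMeasure μ]
    (hm1 : ∫ t, max (-1) (min 1 t) ∂μ = 0) (a : ℝ) (ha : 0 < a) :
    (Measure.pi fun _ : T d L => μ).real {V | NN d L * a ≤ |∑ x, clamp V x|} ≤
      1 / (NN d L * a ^ 2) := by
  have hN : 0 < NN d L := NN_pos
  obtain ⟨v, hv⟩ : ∃ v, ∫ t, (max (-1) (min 1 t)) ^ 2 ∂μ = v := ⟨_, rfl⟩
  have hv1 : v ≤ 1 := by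
    rw [← hv]
    have h1 : ∫ t, (max (-1) (min 1 t)) ^ 2 ∂μ ≤ ∫ _t : ℝ, (1 : ℝ) ∂μ := by
      refine integral_mono_of_nonneg (Filter.Eventually.of_forall fun t => by positivity)
        (integrable_const _) (Filter.Eventually.of_forall fun t => ?_)
      have h2 : |max (-1 : ℝ) (min 1 t)| ≤ 1 := by
        rw [abs_le]
        exact ⟨le_max_left _ _, max_le (by norm_num) (min_le_left _ _)⟩
      have h3 := pow_le_pow_left₀ (abs_nonneg _) h2 2
      rw [sq_abs, one_pow] at h3
      exact h3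
    refine h1.trans (le_of_eq ?_)
    simp
  set P := Measure.pi fun _ : T d L => μ with hP
  have hsq : ∀ V : T d L → ℝ, (∑ x, clamp V x) ^ 2 = ∑ x, ∑ y, clamp V x * clamp V y := by
    intro V
    rw [sq, Finset.sum_mul_sum]
  have hint : Integrable (fun V : T d L → ℝ => (∑ x, clamp V x) ^ 2) P := by
    simp only [hsq]
    exact integrable_finsetSum _ fun x _ => integrable_finsetSum _ fun y _ => int_prod μ x y
  refine (cheb P _ hint (NN d L * a) (by positivity)).trans ?_
  have h1 : ∫ V, (∑ x, clamp V x) ^ 2 ∂P = NN d L * v := by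
    simp only [hsq]
    rw [integral_finsetSum _ fun x _ => integrable_finsetSum _ fun y _ => int_prod μ x y]
    have h2 : ∀ x : T d L, ∫ V, ∑ y, clamp V x * clamp V y ∂P = v := by
      intro x
      rw [integral_finsetSum _ fun y _ => int_prod μ x y,
        Finset.sum_congr rfl fun y _ => mom μ v hm1 hv x y]
      simp
    rw [Finset.sum_congr rfl fun x _ => h2 x]
    unfold NN
    rw [Finset.sum_const, Finset.sum_const, nsmul_eq_mul, nsmul_eq_mul, mul_one]
  rw [h1, div_le_div_iff₀ (by positivity) (by positivity)]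
  have h2 : NN d L * v * (NN d L * a ^ 2) ≤ NN d L * 1 * (NN d L * a ^ 2) := by gcongr
  refine h2.trans (le_of_eq ?_)
  ring

end Pool.Agent.Y663.M3.Quad
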