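import Pool.Agent.Y663.M3.Asy

/-! Reduction of the asymptotics of the edge to centered laws (helper663). -/

set_option autoImplicit false

open scoped BigOperators ENNReal
open MeasureTheory

namespace Pool.Agent.Y663.M3.Shift

open Pool.Agent.H4R2
open Pool.Agent.H4R2.AE (T LapW Hop)
open Pool.Agent.Y661.ED (Gd)

variable {d L : ℕ} [NeZero L]

/-- centering and scaling -/
noncomputable def cs (m t : ℝ) : ℝ := (t - m) / 2

theorem cs_meas (m : ℝ) : Measurable (cs m) := by
  unfold cs
  fun_prop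

theorem flat_shift (lam η κ E m : ℝ) (V : T d L → ℝ)
    (h : AE.Core.FlatE lam η κ E fun x => 2 * V x + m) :
    AE.Core.FlatE (2 * lam) η κ (E - lam * m) V := by
  have e : ∀ f x, Hop lam (fun x => 2 * V x + m) f x = Hop (2 * lam) V f x + lam * m * f x := by
    intro f x
    unfold AE.Hop
    ring
  obtain ⟨E0, ψ, h1, h2, h3, h4⟩ := h
  refine ⟨E0 - lam * m, ψ, ?_, h2, fun x => ?_, fun f hf => ?_⟩
  · rw [show E0 - lam * m - (E - lam * m) = E0 - E by ring]
    exact h1
  · have := h3 x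
    rw [e] at this
    linarith
  · refine (h4 f hf).trans (le_of_eq ?_)
    refine Finset.sum_congr rfl fun x _ => ?_
    rw [e]
    ring

theorem law (μ : Measure ℝ) [IsProbabilityMeasure μ] (m : ℝ) (G : Set (T d L → ℝ))
    (hG : MeasurableSet G) :
    (Measure.pi fun _ : T d L => μ.map (cs m)).real {V | (fun x => 2 * V x + m) ∈ G} =
      (Measure.pi fun _ : T d L => μ).real G := by
  have : IsProbabilityMeasure (μ.map (cs m)) :=
    Measure.isProbabilityMeasure_map (cs_meas m).aemeasurable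
  have h1 := Measure.pi_map_pi (μ := fun _ : T d L => μ) (f := fun _ : T d L => cs m)
    (fun _ => (cs_meas m).aemeasurable)
  have hm : Measurable (fun (V : T d L → ℝ) (x : T d L) => 2 * V x + m) := by fun_prop
  have hm2 : Measurable (fun (V : T d L → ℝ) (x : T d L) => cs m (V x)) := by
    refine measurable_pi_lambda _ fun x => ?_
    exact (cs_meas m).comp (measurable_pi_apply x)
  have hms : MeasurableSet {V : T d L → ℝ | (fun x => 2 * V x + m) ∈ G} := hm hG
  rw [← h1, map_measureReal_apply hm2 hms]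
  congr 1
  ext V
  have : (fun x => 2 * cs m (V x) + m) = V := by
    funext x
    unfold cs
    ring
  show (fun x => 2 * cs m (V x) + m) ∈ G ↔ V ∈ G
  rw [this]

theorem ae_supp (μ : Measure ℝ) (hμ : μ (Set.Icc (-1) 1)ᶜ = 0) : ∀ᵐ t ∂μ, |t| ≤ 1 := by
  rw [ae_iff]
  refine le_antisymm ?_ zero_le
  rw [← hμ]
  apply measure_mono
  intro t ht
  simp only [Set.mem_compl_iff, Set.mem_Icc]
  intro h
  exact ht (abs_le.2 h)

theorem supp_cs (μ : Measure ℝ) [IsProbabilityMeasure μ] (hμ : μ (Set.Icc (-1) 1)ᶜ = 0) (m : ℝ)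
    (hm : ∫ t, t ∂μ = m) : μ.map (cs m) (Set.Icc (-1) 1)ᶜ = 0 := by
  have hae := ae_supp μ hμ
  have hm1 : |m| ≤ 1 := by
    rw [← hm]
    have := norm_integral_le_of_norm_le_const (μ := μ) (f := fun t : ℝ => t) (C := 1)
      (by filter_upwards [hae] with t ht; exact ht)
    simpa using this
  rw [Measure.map_apply (cs_meas m) measurableSet_Icc.compl]
  refine measure_mono_null ?_ hμ
  intro t ht
  simp only [Set.mem_preimage, Set.mem_compl_iff, Set.mem_Icc, cs] at ht ⊢
  intro h
  refine ht ?_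
  have := abs_le.1 hm1
  constructor <;> linarith [h.1, h.2]

theorem moments (μ : Measure ℝ) [IsProbabilityMeasure μ] (hμ : μ (Set.Icc (-1) 1)ᶜ = 0) (m v : ℝ)
    (hm : ∫ t, t ∂μ = m) (hv : ∫ t, (t - m) ^ 2 ∂μ = v) :
    0 ≤ v / 4 ∧ v / 4 ≤ 1 ∧ ∫ t, max (-1) (min 1 t) ∂(μ.map (cs m)) = 0 ∧
      ∫ t, (max (-1) (min 1 t)) ^ 2 ∂(μ.map (cs m)) = v / 4 := by
  have hae := ae_supp μ hμ
  have hpr : IsProbabilityMeasure (μ.map (cs m)) :=
    Measure.isProbabilityMeasure_map (cs_meas m).aemeasurable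
  have hae' := ae_supp _ (supp_cs μ hμ m hm)
  have hcl : ∀ t : ℝ, |t| ≤ 1 → max (-1) (min 1 t) = t := by
    intro t ht
    obtain ⟨h1, h2⟩ := abs_le.1 ht
    rw [min_eq_right h2, max_eq_right h1]
  have hint : Integrable (fun t : ℝ => t) μ := by
    refine Integrable.mono' (integrable_const 1) measurable_id.aestronglyMeasurable ?_
    filter_upwards [hae] with t ht
    exact ht
  have e1 : ∫ t, max (-1) (min 1 t) ∂(μ.map (cs m)) = 0 := by
    rw [integral_congr_ae (g := fun t => t) (by filter_upwards [hae'] with t ht; exact hcl t ht),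
      integral_map (f := fun t : ℝ => t) (cs_meas m).aemeasurable
        measurable_id.aestronglyMeasurable]
    unfold cs
    rw [integral_div, integral_sub hint (integrable_const _), hm]
    simp
  have e2 : ∫ t, (max (-1) (min 1 t)) ^ 2 ∂(μ.map (cs m)) = v / 4 := by
    rw [integral_congr_ae (g := fun t => t ^ 2) (by
        filter_upwards [hae'] with t ht
        show (max (-1) (min 1 t)) ^ 2 = t ^ 2
        rw [hcl t ht]),
      integral_map (cs_meas m).aemeasurable (by fun_prop)]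
    have : ∀ t : ℝ, cs m t ^ 2 = (t - m) ^ 2 / 4 := by
      intro t
      unfold cs
      ring
    simp only [this]
    rw [integral_div, hv]
  refine ⟨?_, ?_, e1, e2⟩
  · rw [← e2]
    exact integral_nonneg fun t => sq_nonneg _
  · rw [← e2]
    have h1 : ∫ t, (max (-1) (min 1 t)) ^ 2 ∂(μ.map (cs m)) ≤ ∫ t, (1 : ℝ) ∂(μ.map (cs m)) := by
      refine integral_mono_of_nonneg (Filter.Eventually.of_forall fun t => sq_nonneg _)
        (integrable_const _) (Filter.Eventually.of_forall fun t => ?_)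
      show (max (-1) (min 1 t)) ^ 2 ≤ (1 : ℝ)
      rw [sq_le_one_iff_abs_le_one, abs_le]
      exact ⟨le_max_left _ _, max_le (by norm_num) (min_le_left _ _)⟩
    simpa using h1

/-- the value of the edge, general laws on `[-1,1]` -/
theorem asy (k K η : ℝ) (hk : 0 < k) (hK : 1 ≤ K) (hη1 : η ≤ 1) (ε : ℝ) (hε : 0 < ε) :
    ∃ s0 : ℝ, 0 < s0 ∧ s0 ≤ 1 ∧ ∀ (μ : Measure ℝ) [IsProbabilityMeasure μ],
      μ (Set.Icc (-1) 1)ᶜ = 0 → ∀ m v : ℝ, ∫ t, t ∂μ = m → ∫ t, (t - m) ^ 2 ∂μ = v →
      ∀ lam : ℝ, 0 < lam → lam ≤ s0 → ∀ Es : ℝ,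
      (∀ (L : ℕ) [NeZero L], (L : ℝ) * (lam ^ 2 * Real.log (1 / lam)) ≤ k →
        ∃ G : Set (T 3 L → ℝ), MeasurableSet G ∧
          1 - Real.exp (-(k / (L * lam ^ 2))) ≤
            (Measure.pi fun _ : T 3 L => μ).real G ∧
          ∀ V ∈ G, AE.Core.FlatE lam η (K / (L : ℝ) ^ 2) Es V) →
      |Es - (lam * m - lam ^ 2 * v * Gd 3)| ≤ ε * lam ^ 2 := by
  obtain ⟨σ0, hσ0, hσ1, H⟩ := Asy.asy k K η hk hK hη1 (ε / 4) (by positivity)
  refine ⟨min (1 / 4) (σ0 / 2), by positivity, (min_le_left _ _).trans (by norm_num), ?_⟩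
  intro μ _ hμ m v hm hv lam hlam hlam0 Es hT
  have hl4 : lam ≤ 1 / 4 := hlam0.trans (min_le_left _ _)
  have hls : lam ≤ σ0 / 2 := hlam0.trans (min_le_right _ _)
  obtain ⟨hv0, hv1, e1, e2⟩ := moments μ hμ m v hm hv
  have hpr : IsProbabilityMeasure (μ.map (cs m)) :=
    Measure.isProbabilityMeasure_map (cs_meas m).aemeasurable
  have h := H (μ.map (cs m)) (supp_cs μ hμ m hm) (v / 4) hv0 hv1 e1 e2 (2 * lam) (by positivity)
    (by linarith) (Es - lam * m) (fun L _ hL => by
      have hLp : (0 : ℝ) < L := AE.Core.L_pos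
      obtain ⟨G, hG, hP, hF⟩ := hT L (by
        refine le_trans ?_ hL
        apply mul_le_mul_of_nonneg_left _ hLp.le
        have h1 : Real.log (1 / lam) = Real.log (1 / (2 * lam)) + Real.log 2 := by
          rw [← Real.log_mul (by positivity) (by norm_num)]
          congr 1
          field_simp
        have h2 : Real.log 2 ≤ Real.log (1 / (2 * lam)) := by
          apply Real.log_le_log (by norm_num)
          rw [le_div_iff₀ (by positivity)]
          linarith
        have h3 : 0 < Real.log 2 := Real.log_pos (by norm_num)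
        have h4 : lam ^ 2 * Real.log (1 / lam) ≤ lam ^ 2 * (4 * Real.log (1 / (2 * lam))) := by
          apply mul_le_mul_of_nonneg_left _ (sq_nonneg _)
          linarith
        refine h4.trans (le_of_eq ?_)
        ring)
      refine ⟨{V | (fun x => 2 * V x + m) ∈ G}, ?_, ?_, fun V hV => flat_shift lam η _ Es m V
        (hF _ hV)⟩
      · have hm : Measurable (fun (V : T 3 L → ℝ) (x : T 3 L) => 2 * V x + m) := by fun_prop
        exact hm hG
      · rw [law μ m G hG]
        refine le_trans ?_ hP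
        have h5 : k / (L * (2 * lam) ^ 2) ≤ k / (L * lam ^ 2) := by
          apply div_le_div_of_nonneg_left hk.le (by positivity)
          have : lam ^ 2 ≤ (2 * lam) ^ 2 := by nlinarith [sq_nonneg lam]
          gcongr
        have h6 := Real.exp_le_exp.2 (neg_le_neg h5)
        linarith)
  have e3 : Es - lam * m + (2 * lam) ^ 2 * (v / 4 * Gd 3) = Es - (lam * m - lam ^ 2 * v * Gd 3) := by
    ring
  rw [e3] at h
  refine h.trans (le_of_eq ?_)
  ring

end Pool.Agent.Y663.M3.Shift
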